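import Pool.Agent.R225.NM.Eig

set_option autoImplicit false

/-!
# Neumann eigenvalues of boxes
-/

namespace Pool.Agent.R225.NM

open MeasureTheory Set WithLp
open scoped Real

/-- the open box with the sides `a i`, at the origin -/
def Box {d : ℕ} (a : Fin d → ℝ) : Set (EuclideanSpace ℝ (Fin d)) :=
  {x | ∀ i, x i ∈ Ioo 0 (a i)}

variable {d : ℕ}

theorem box_preimage (a : Fin d → ℝ) :
    (fun x : Fin d → ℝ => (toLp 2 x : EuclideanSpace ℝ (Fin d))) ⁻¹' (Box a) =
      univ.pi fun i => Ioo 0 (a i) := by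
  ext x
  simp [Box]

theorem cos_int (a : ℝ) (ha : 0 < a) (n : ℤ) :
    ∫ t in Ioo 0 a, Real.cos (π * n * t / a) = if n = 0 then a else 0 := by
  rw [← integral_Ioc_eq_integral_Ioo, ← intervalIntegral.integral_of_le ha.le]
  split_ifs with h
  · subst h
    simp
  · have hn : (n:ℝ) ≠ 0 := by exact_mod_cast h
    have h1 : ∀ t ∈ uIcc 0 a, HasDerivAt (fun t => a / (π * n) * Real.sin (π * n * t / a))
        (Real.cos (π * n * t / a)) t := by
      intro t _
      have h2 : HasDerivAt (fun t : ℝ => π * n * t / a) (π * n / a) t := by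
        have := ((hasDerivAt_id t).const_mul (π * n)).div_const a
        simpa using this
      refine (h2.sin.const_mul (a / (π * n))).congr_deriv ?_
      have := Real.pi_ne_zero
      field_simp
    rw [intervalIntegral.integral_eq_sub_of_hasDerivAt h1
      (by apply Continuous.intervalIntegrable; fun_prop)]
    have h3 : π * n * a / a = n * π := by field_simp
    rw [h3, Real.sin_int_mul_pi]
    simp

theorem pair_cos (a : ℝ) (ha : 0 < a) (p q : ℕ) :
    ∫ t in Ioo 0 a, Real.cos (π * p * t / a) * Real.cos (π * q * t / a) =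
      if p = q then (if p = 0 then a else a / 2) else 0 := by
  have h1 : ∀ t, Real.cos (π * p * t / a) * Real.cos (π * q * t / a) =
      (Real.cos (π * ((p - q : ℤ) : ℝ) * t / a) + Real.cos (π * ((p + q : ℤ) : ℝ) * t / a)) / 2 := by
    intro t
    have e1 : π * ((p - q : ℤ) : ℝ) * t / a = π * p * t / a - π * q * t / a := by
      push_cast; ring
    have e2 : π * ((p + q : ℤ) : ℝ) * t / a = π * p * t / a + π * q * t / a := by
      push_cast; ring
    rw [e1, e2, Real.cos_sub, Real.cos_add]
    ring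
  simp only [h1]
  have i1 : ∀ n : ℤ, IntegrableOn (fun t => Real.cos (π * (n:ℝ) * t / a)) (Ioo 0 a) := fun n =>
    (Continuous.integrableOn_Icc (by fun_prop)).mono_set Ioo_subset_Icc_self
  rw [integral_div, integral_add (i1 _) (i1 _), cos_int a ha, cos_int a ha]
  by_cases hpq : p = q
  · subst hpq
    by_cases hp : p = 0
    · subst hp
      simp
    · have h2 : ((p : ℤ) + p) ≠ 0 := by omega
      rw [if_pos (by omega), if_neg h2, if_pos rfl, if_neg hp]
      ring
  · have h2 : ((p : ℤ) + q) ≠ 0 := by omega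
    have h3 : ((p : ℤ) - q) ≠ 0 := by omega
    rw [if_neg h2, if_neg h3, if_neg hpq]
    ring

theorem pair_sin (a : ℝ) (ha : 0 < a) (p q : ℕ) :
    ∫ t in Ioo 0 a, (-(π * p / a) * Real.sin (π * p * t / a)) *
        (-(π * q / a) * Real.sin (π * q * t / a)) =
      if p = q then (π * p / a) ^ 2 * (if p = 0 then a else a / 2) else 0 := by
  have h1 : ∀ t, (-(π * p / a) * Real.sin (π * p * t / a)) *
        (-(π * q / a) * Real.sin (π * q * t / a)) = (π * p / a) * (π * q / a) *
      ((Real.cos (π * ((p - q : ℤ) : ℝ) * t / a) - Real.cos (π * ((p + q : ℤ) : ℝ) * t / a)) / 2) := by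
    intro t
    have e1 : π * ((p - q : ℤ) : ℝ) * t / a = π * p * t / a - π * q * t / a := by
      push_cast; ring
    have e2 : π * ((p + q : ℤ) : ℝ) * t / a = π * p * t / a + π * q * t / a := by
      push_cast; ring
    rw [e1, e2, Real.cos_sub, Real.cos_add]
    ring
  simp only [h1]
  have i1 : ∀ n : ℤ, IntegrableOn (fun t => Real.cos (π * (n:ℝ) * t / a)) (Ioo 0 a) := fun n =>
    (Continuous.integrableOn_Icc (by fun_prop)).mono_set Ioo_subset_Icc_self
  rw [integral_const_mul, integral_div, integral_sub (i1 _) (i1 _), cos_int a ha, cos_int a ha]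
  by_cases hpq : p = q
  · subst hpq
    by_cases hp : p = 0
    · subst hp
      simp
    · have h2 : ((p : ℤ) + p) ≠ 0 := by omega
      rw [if_pos (by omega), if_neg h2, if_pos rfl, if_neg hp]
      ring
  · have h2 : ((p : ℤ) + q) ≠ 0 := by omega
    have h3 : ((p : ℤ) - q) ≠ 0 := by omega
    rw [if_neg h2, if_neg h3, if_neg hpq]
    ring

theorem pi_int (a : Fin d → ℝ) (F : Fin d → ℝ → ℝ) :
    ∫ x in univ.pi (fun i => Ioo 0 (a i)), ∏ i, F i (x i) = ∏ i, ∫ t in Ioo 0 (a i), F i t := by
  rw [volume_pi, Measure.restrict_pi_pi]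
  exact integral_fintype_prod_eq_prod _

/-- products of cosines -/
noncomputable def tf (a : Fin d → ℝ) (m : Fin d → ℕ) (x : Fin d → ℝ) : ℝ :=
  ∏ i, Real.cos (π * m i * x i / a i)

/-- their squared norms -/
noncomputable def nn (a : Fin d → ℝ) (m : Fin d → ℕ) : ℝ :=
  ∏ i, (if m i = 0 then a i else a i / 2)

theorem nn_pos {a : Fin d → ℝ} (ha : ∀ i, 0 < a i) (m : Fin d → ℕ) : 0 < nn a m := by
  refine Finset.prod_pos fun i _ => ?_
  split_ifs
  · exact ha i
  · exact half_pos (ha i)

theorem tf_contDiff (a : Fin d → ℝ) (m : Fin d → ℕ) : ContDiff ℝ 1 (tf a m) := by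
  unfold tf
  refine contDiff_prod fun i _ => ?_
  refine Real.contDiff_cos.comp ?_
  exact (contDiff_const.mul (contDiff_apply ℝ ℝ i)).div_const _

/-- the factors of the partial derivative -/
noncomputable def fac (a : Fin d → ℝ) (m : Fin d → ℕ) (i l : Fin d) (t : ℝ) : ℝ :=
  if l = i then -(π * m l / a l) * Real.sin (π * m l * t / a l)
  else Real.cos (π * m l * t / a l)

theorem pd_tf (a : Fin d → ℝ) (m : Fin d → ℕ) (i : Fin d) (x : Fin d → ℝ) :
    pd (tf a m) i x = ∏ l, fac a m i l (x l) := by
  have h1 : ∀ l ∈ Finset.univ, HasFDerivAt (fun x : Fin d → ℝ => Real.cos (π * m l * x l / a l))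
      ((-(π * m l / a l) * Real.sin (π * m l * x l / a l)) •
        (ContinuousLinearMap.proj l : (Fin d → ℝ) →L[ℝ] ℝ)) x := by
    intro l _
    have h2 : HasDerivAt (fun t : ℝ => Real.cos (π * m l * t / a l))
        (-(π * m l / a l) * Real.sin (π * m l * x l / a l)) (x l) := by
      have h3 : HasDerivAt (fun t : ℝ => π * m l * t / a l) (π * m l / a l) (x l) := by
        simpa using ((hasDerivAt_id (x l)).const_mul (π * (m l : ℝ))).div_const (a l)
      exact h3.cos.congr_deriv (by ring)
    exact h2.comp_hasFDerivAt x (ContinuousLinearMap.proj l : (Fin d → ℝ) →L[ℝ] ℝ).hasFDerivAt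
  have h2 := (HasFDerivAt.finsetProd h1).fderiv
  unfold pd tf
  rw [h2]
  simp only [ContinuousLinearMap.sum_apply, ContinuousLinearMap.smul_apply,
    ContinuousLinearMap.proj_apply, smul_eq_mul]
  rw [Finset.sum_eq_single i]
  · rw [Pi.single_eq_same, mul_one, ← Finset.mul_prod_erase Finset.univ _ (Finset.mem_univ i),
      mul_comm]
    congr 1
    · simp [fac]
    · refine Finset.prod_congr rfl fun l hl => ?_
      rw [fac, if_neg (Finset.ne_of_mem_erase hl)]
  · intro l _ hl
    rw [Pi.single_eq_of_ne hl]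
    ring
  · intro h
    exact absurd (Finset.mem_univ i) h

theorem tf_orth {a : Fin d → ℝ} (ha : ∀ i, 0 < a i) (p q : Fin d → ℕ) :
    ∫ x in univ.pi (fun i => Ioo 0 (a i)), tf a p x * tf a q x =
      if p = q then nn a p else 0 := by
  unfold tf
  simp only [← Finset.prod_mul_distrib]
  rw [pi_int a fun i t => Real.cos (π * p i * t / a i) * Real.cos (π * q i * t / a i)]
  simp only [pair_cos _ (ha _)]
  split_ifs with h
  · subst h
    simp [nn]
  · obtain ⟨i, hi⟩ := Function.ne_iff.1 h
    exact Finset.prod_eq_zero (Finset.mem_univ i) (if_neg hi)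

theorem pd_orth {a : Fin d → ℝ} (ha : ∀ i, 0 < a i) (p q : Fin d → ℕ) (i : Fin d) :
    ∫ x in univ.pi (fun i => Ioo 0 (a i)), pd (tf a p) i x * pd (tf a q) i x =
      if p = q then (π * p i / a i) ^ 2 * nn a p else 0 := by
  simp only [pd_tf, ← Finset.prod_mul_distrib]
  rw [pi_int a fun l t => fac a p i l t * fac a q i l t]
  have h1 : ∀ l, ∫ t in Ioo 0 (a l), fac a p i l t * fac a q i l t =
      if l = i then (if p l = q l then (π * p l / a l) ^ 2 * (if p l = 0 then a l else a l / 2)
        else 0) else (if p l = q l then (if p l = 0 then a l else a l / 2) else 0) := by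
    intro l
    by_cases hl : l = i
    · simp only [fac, if_pos hl]
      exact pair_sin _ (ha l) _ _
    · simp only [fac, if_neg hl]
      exact pair_cos _ (ha l) _ _
  simp only [h1]
  by_cases h : p = q
  · subst h
    rw [if_pos rfl, nn, ← Finset.mul_prod_erase Finset.univ _ (Finset.mem_univ i),
      ← Finset.mul_prod_erase Finset.univ (fun i => if p i = 0 then a i else a i / 2)
        (Finset.mem_univ i), ← mul_assoc]
    congr 1
    · simp
    · refine Finset.prod_congr rfl fun l hl => ?_
      rw [if_neg (Finset.ne_of_mem_erase hl), if_pos rfl]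
  · rw [if_neg h]
    obtain ⟨l, hl⟩ := Function.ne_iff.1 h
    refine Finset.prod_eq_zero (Finset.mem_univ l) ?_
    rw [if_neg hl, if_neg hl]
    simp

theorem pyth {X : Type} [MeasurableSpace X] {μ : Measure X} {k : ℕ} (u : Fin (k + 1) → X → ℝ)
    (w : Fin (k + 1) → ℝ) (hint : ∀ j l, Integrable (fun x => u j x * u l x) μ)
    (h : ∀ j l, ∫ x, u j x * u l x ∂μ = if j = l then w j else 0) (c : Fin (k + 1) → ℝ) :
    ∫ x, (∑ j, c j * u j x) ^ 2 ∂μ = ∑ j, c j ^ 2 * w j := by
  have h1 : ∀ x, (∑ j, c j * u j x) ^ 2 = ∑ j, ∑ l, c j * c l * (u j x * u l x) := by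
    intro x
    rw [sq, Finset.sum_mul_sum]
    refine Finset.sum_congr rfl fun j _ => Finset.sum_congr rfl fun l _ => ?_
    ring
  simp only [h1]
  rw [integral_finset_sum _ fun j _ => integrable_finset_sum _ fun l _ => (hint j l).const_mul _]
  refine Finset.sum_congr rfl fun j _ => ?_
  rw [integral_finset_sum _ fun l _ => (hint j l).const_mul _]
  simp only [integral_const_mul, h]
  rw [Finset.sum_eq_single j]
  · rw [if_pos rfl]
    ring
  · intro l _ hl
    rw [if_neg (Ne.symm hl), mul_zero]
  · intro h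
    exact absurd (Finset.mem_univ j) h

theorem intble_box {g : (Fin d → ℝ) → ℝ} (hg : Continuous g) (a : Fin d → ℝ) :
    Integrable g (volume.restrict (univ.pi fun i => Ioo 0 (a i))) := by
  have h1 : IntegrableOn g (Icc 0 a) := hg.integrableOn_Icc
  refine h1.mono_set ?_
  intro x hx
  exact ⟨fun i => (hx i (mem_univ i)).1.le, fun i => (hx i (mem_univ i)).2.le⟩

/-- the upper bound of the eigenvalues of a box -/
theorem RB_box {a : Fin d → ℝ} (ha : ∀ i, 0 < a i) {k : ℕ} (m : Fin (k + 1) → Fin d → ℕ)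
    (hm : Function.Injective m) {M : ℝ} (hM : ∀ j, ∑ i, (π * m j i / a i) ^ 2 ≤ M) :
    RayleighBound (Box a) k M := by
  set g : Fin (k + 1) → EuclideanSpace ℝ (Fin d) → ℝ := fun j x => tf a (m j) (ofLp x) with hg
  have cg : ∀ j, ContDiff ℝ 1 (g j) := fun j => (tf_contDiff a (m j)).comp ofLp_contDiff
  have hint : ∀ j l, Integrable (fun x => tf a (m j) x * tf a (m l) x)
      (volume.restrict (univ.pi fun i => Ioo 0 (a i))) := fun j l =>
    intble_box ((tf_contDiff a (m j)).continuous.mul (tf_contDiff a (m l)).continuous) a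
  have hint' : ∀ i j l, Integrable (fun x => pd (tf a (m j)) i x * pd (tf a (m l)) i x)
      (volume.restrict (univ.pi fun i => Ioo 0 (a i))) := fun i j l =>
    intble_box ((pd_continuous (tf_contDiff a (m j)) i).mul
      (pd_continuous (tf_contDiff a (m l)) i)) a
  have e1 : ∀ c : Fin (k + 1) → ℝ, ∫ x in Box a, (∑ i, c i • g i) x ^ 2 =
      ∑ j, c j ^ 2 * nn a (m j) := by
    intro c
    rw [← setInt (Box a), box_preimage]
    simp only [combo_apply]
    refine pyth (fun j => tf a (m j)) (fun j => nn a (m j)) hint (fun j l => ?_) c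
    rw [tf_orth ha]
    simp only [hm.eq_iff]
  have e2 : ∀ c : Fin (k + 1) → ℝ, ∫ x in Box a, ‖fderiv ℝ (∑ i, c i • g i) x‖ ^ 2 =
      ∑ i, ∑ j, c j ^ 2 * ((π * m j i / a i) ^ 2 * nn a (m j)) := by
    intro c
    rw [← setInt (Box a) (fun x => ‖fderiv ℝ (∑ i, c i • g i) x‖ ^ 2), box_preimage]
    simp only [norm_fderiv_sq _ (combo_contDiff c cg)]
    have e3 : ∀ i x, pd (fun y : Fin d → ℝ => (∑ i, c i • g i) (toLp 2 y)) i x =
        ∑ j, c j * pd (tf a (m j)) i x := by
      intro i x
      have e4 : (fun y : Fin d → ℝ => (∑ i, c i • g i) (toLp 2 y)) =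
          fun y => ∑ j, c j * tf a (m j) y := by
        funext y
        rw [combo_apply]
      rw [e4]
      unfold pd
      rw [fderiv_fun_sum fun j _ =>
        ((tf_contDiff a (m j)).differentiable one_ne_zero x).const_mul (c j)]
      rw [ContinuousLinearMap.sum_apply]
      refine Finset.sum_congr rfl fun j _ => ?_
      rw [fderiv_const_mul ((tf_contDiff a (m j)).differentiable one_ne_zero x)]
      rfl
    simp only [e3]
    rw [integral_finset_sum]
    · refine Finset.sum_congr rfl fun i _ => ?_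
      refine pyth (fun j => pd (tf a (m j)) i) (fun j => (π * m j i / a i) ^ 2 * nn a (m j))
        (hint' i) (fun j l => ?_) c
      rw [pd_orth ha]
      simp only [hm.eq_iff]
    · intro i _
      refine intble_box ?_ a
      exact (continuous_finsetSum _ fun j _ =>
        continuous_const.mul (pd_continuous (tf_contDiff a (m j)) i)).pow 2
  refine ⟨g, cg, ?_, fun c => ?_⟩
  · rw [Fintype.linearIndependent_iff]
    intro c hc
    have h1 : ∫ x in Box a, (∑ i, c i • g i) x ^ 2 = 0 := by
      have hop : MeasurableSet (Box a) := by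
        have h2 : Box a = ⋂ i, (fun x : EuclideanSpace ℝ (Fin d) => x i) ⁻¹' Ioo 0 (a i) := by
          ext x
          simp [Box]
        rw [h2]
        refine MeasurableSet.iInter fun i => ?_
        have h3 : Continuous fun x : EuclideanSpace ℝ (Fin d) => x i := by fun_prop
        exact h3.measurable measurableSet_Ioo
      rw [setIntegral_congr_fun hop (g := fun _ => 0)]
      · simp
      · intro x hx
        have h2 := congrFun hc ⟨x, hx⟩
        simp only [Finset.sum_apply, Pi.smul_apply, smul_eq_mul, Pi.zero_apply] at h2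
        show (∑ i, c i • g i) x ^ 2 = 0
        rw [combo_apply, h2]
        ring
    rw [e1] at h1
    intro j
    have h2 := (Finset.sum_eq_zero_iff_of_nonneg fun j _ =>
      mul_nonneg (sq_nonneg (c j)) (nn_pos ha (m j)).le).1 h1 j (Finset.mem_univ j)
    rcases mul_eq_zero.1 h2 with h3 | h3
    · exact pow_eq_zero_iff two_ne_zero |>.1 h3
    · exact absurd h3 (nn_pos ha (m j)).ne'
  · rw [e1, e2, Finset.sum_comm, Finset.mul_sum]
    refine Finset.sum_le_sum fun j _ => ?_
    have h1 : ∑ i, c j ^ 2 * ((π * m j i / a i) ^ 2 * nn a (m j)) =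
        (∑ i, (π * m j i / a i) ^ 2) * (c j ^ 2 * nn a (m j)) := by
      rw [Finset.sum_mul]
      refine Finset.sum_congr rfl fun i _ => ?_
      ring
    rw [h1]
    exact mul_le_mul_of_nonneg_right (hM j) (mul_nonneg (sq_nonneg _) (nn_pos ha (m j)).le)

end Pool.Agent.R225.NM
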