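import Pool.Agent.R225.NM.Poin

set_option autoImplicit false

/-!
# Neumann eigenvalues by the min-max principle
-/

namespace Pool.Agent.R225.NM

open MeasureTheory Set WithLp
open scoped Real

/-- `Ω` carries `k + 1` functions of class `C¹`, linearly independent on `Ω`, such that each
linear combination `v` of them satisfies `∫_Ω |∇v|² ≤ M ∫_Ω v²`. -/
def RayleighBound {d : ℕ} (Ω : Set (EuclideanSpace ℝ (Fin d))) (k : ℕ) (M : ℝ) : Prop :=
  ∃ g : Fin (k + 1) → EuclideanSpace ℝ (Fin d) → ℝ, (∀ i, ContDiff ℝ 1 (g i)) ∧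
    LinearIndependent ℝ (fun (i : Fin (k + 1)) (x : Ω) => g i x) ∧
    ∀ c : Fin (k + 1) → ℝ,
      ∫ x in Ω, ‖fderiv ℝ (∑ i, c i • g i) x‖ ^ 2 ≤ M * ∫ x in Ω, (∑ i, c i • g i) x ^ 2

/-- The Neumann eigenvalue `μ_k(Ω)`, `k = 0, 1, 2, …`, of the Laplacian on a bounded convex domain
`Ω` (where `μ_0 = 0`), by the min-max principle: the infimum of the maximal Rayleigh quotients of
the `(k + 1)`-dimensional spaces of `C¹` functions. -/
noncomputable def neumannEigenvalue {d : ℕ} (Ω : Set (EuclideanSpace ℝ (Fin d))) (k : ℕ) : ℝ :=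
  sInf {M : ℝ | RayleighBound Ω k M}

variable {d : ℕ}

theorem setInt (Ω : Set (EuclideanSpace ℝ (Fin d))) (G : EuclideanSpace ℝ (Fin d) → ℝ) :
    ∫ x in (fun x : Fin d → ℝ => (toLp 2 x : EuclideanSpace ℝ (Fin d))) ⁻¹' Ω, G (toLp 2 x) =
      ∫ x in Ω, G x :=
  (PiLp.volume_preserving_toLp (Fin d)).setIntegral_preimage_emb
    (MeasurableEquiv.toLp 2 (Fin d → ℝ)).measurableEmbedding G Ω

theorem toLp_contDiff :
    ContDiff ℝ 1 (fun x : Fin d → ℝ => (toLp 2 x : EuclideanSpace ℝ (Fin d))) :=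
  (PiLp.continuousLinearEquiv 2 ℝ (fun _ : Fin d => ℝ)).symm.contDiff

theorem ofLp_contDiff :
    ContDiff ℝ 1 (fun x : EuclideanSpace ℝ (Fin d) => (ofLp x : Fin d → ℝ)) :=
  (PiLp.continuousLinearEquiv 2 ℝ (fun _ : Fin d => ℝ)).contDiff

theorem norm_fderiv_sq (f : EuclideanSpace ℝ (Fin d) → ℝ) (hf : ContDiff ℝ 1 f)
    (x : Fin d → ℝ) :
    ‖fderiv ℝ f (toLp 2 x)‖ ^ 2 =
      ∑ i, pd (fun y : Fin d → ℝ => f (toLp 2 y)) i x ^ 2 := by
  set L : EuclideanSpace ℝ (Fin d) →L[ℝ] ℝ := fderiv ℝ f (toLp 2 x) with hL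
  have h1 : ∀ i, pd (fun y : Fin d → ℝ => f (toLp 2 y)) i x = L (EuclideanSpace.single i 1) := by
    intro i
    have h2 : HasFDerivAt (fun y : Fin d → ℝ => (toLp 2 y : EuclideanSpace ℝ (Fin d)))
        ((PiLp.continuousLinearEquiv 2 ℝ (fun _ : Fin d => ℝ)).symm :
          (Fin d → ℝ) →L[ℝ] EuclideanSpace ℝ (Fin d)) x :=
      ((PiLp.continuousLinearEquiv 2 ℝ (fun _ : Fin d => ℝ)).symm :
          (Fin d → ℝ) →L[ℝ] EuclideanSpace ℝ (Fin d)).hasFDerivAt
    have h3 : HasFDerivAt f L (toLp 2 x) := ((hf.differentiable one_ne_zero) _).hasFDerivAt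
    have h4 := (h3.comp x h2).fderiv
    unfold pd
    have h5 : fderiv ℝ (fun y : Fin d → ℝ => f (toLp 2 y)) x = L.comp
      ((PiLp.continuousLinearEquiv 2 ℝ (fun _ : Fin d => ℝ)).symm :
          (Fin d → ℝ) →L[ℝ] EuclideanSpace ℝ (Fin d)) := h4
    rw [h5]
    rfl
  simp only [h1]
  obtain ⟨v, hv⟩ := (InnerProductSpace.toDual ℝ (EuclideanSpace ℝ (Fin d))).surjective L
  rw [← hv]
  simp only [InnerProductSpace.toDual_apply_apply, LinearIsometryEquiv.norm_map]
  rw [EuclideanSpace.norm_sq_eq]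
  refine Finset.sum_congr rfl fun i _ => ?_
  rw [EuclideanSpace.inner_single_right]
  simp

theorem combo_apply {α : Type} {k : ℕ} (c : Fin (k + 1) → ℝ) (g : Fin (k + 1) → α → ℝ) (x : α) :
    (∑ i, c i • g i) x = ∑ i, c i * g i x := by
  simp [Finset.sum_apply]

theorem combo_contDiff {k : ℕ} (c : Fin (k + 1) → ℝ)
    {g : Fin (k + 1) → EuclideanSpace ℝ (Fin d) → ℝ} (hg : ∀ i, ContDiff ℝ 1 (g i)) :
    ContDiff ℝ 1 (∑ i, c i • g i) := by
  have : (∑ i, c i • g i) = fun x => ∑ i, c i * g i x := by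
    funext x
    exact combo_apply c g x
  rw [this]
  exact ContDiff.sum fun i _ => contDiff_const.mul (hg i)

theorem cont_sq_pos {Ω : Set (EuclideanSpace ℝ (Fin d))} (ho : IsOpen Ω)
    (hb : Bornology.IsBounded Ω) {f : EuclideanSpace ℝ (Fin d) → ℝ} (hf : Continuous f)
    {x : EuclideanSpace ℝ (Fin d)} (hx : x ∈ Ω) (hfx : f x ≠ 0) :
    0 < ∫ x in Ω, f x ^ 2 := by
  have hi : IntegrableOn (fun x => f x ^ 2) Ω := by
    have h1 : IntegrableOn (fun x => f x ^ 2) (closure Ω) :=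
      (hf.pow 2).continuousOn.integrableOn_compact hb.isCompact_closure
    exact h1.mono_set subset_closure
  refine (integral_pos_iff_support_of_nonneg_ae (Filter.Eventually.of_forall fun x => sq_nonneg _)
    hi).2 ?_
  have h2 : IsOpen (Ω ∩ {x | f x ≠ 0}) :=
    ho.inter (isOpen_ne_fun hf continuous_const)
  have h3 : 0 < volume (Ω ∩ {x | f x ≠ 0}) := h2.measure_pos volume ⟨x, hx, hfx⟩
  rw [Measure.restrict_apply' ho.measurableSet]
  refine h3.trans_le (measure_mono ?_)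
  rintro y ⟨hy1, hy2⟩
  exact ⟨by simpa using hy2, hy1⟩

theorem nonzero_of_LI {Ω : Set (EuclideanSpace ℝ (Fin d))} {k : ℕ}
    {g : Fin (k + 1) → EuclideanSpace ℝ (Fin d) → ℝ}
    (hLI : LinearIndependent ℝ (fun (i : Fin (k + 1)) (x : Ω) => g i x)) {c : Fin (k + 1) → ℝ} (hc : c ≠ 0) :
    ∃ x ∈ Ω, (∑ i, c i • g i) x ≠ 0 := by
  by_contra h
  push Not at h
  refine hc ?_
  have := Fintype.linearIndependent_iff.1 hLI c (by
    funext x
    have h1 := h x.1 x.2
    rw [combo_apply] at h1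
    simpa [Finset.sum_apply] using h1)
  funext i
  exact this i

theorem RB_nonneg {Ω : Set (EuclideanSpace ℝ (Fin d))} (ho : IsOpen Ω)
    (hb : Bornology.IsBounded Ω) {k : ℕ} {M : ℝ} (h : RayleighBound Ω k M) : 0 ≤ M := by
  obtain ⟨g, hg, hLI, hM⟩ := h
  have hc : (fun _ => 1 : Fin (k + 1) → ℝ) ≠ 0 := fun h => by
    have := congrFun h 0
    simp at this
  obtain ⟨x, hx, hne⟩ := nonzero_of_LI hLI hc
  have h1 := cont_sq_pos ho hb (combo_contDiff (fun _ => 1) hg).continuous hx hne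
  have h2 := hM fun _ => 1
  have h3 : 0 ≤ ∫ x in Ω, ‖fderiv ℝ (∑ i, (fun _ => (1:ℝ)) i • g i) x‖ ^ 2 :=
    integral_nonneg fun x => sq_nonneg _
  by_contra hneg
  push Not at hneg
  have h4 := h3.trans h2
  have h5 : M * ∫ x in Ω, (∑ i, (fun _ => (1:ℝ)) i • g i) x ^ 2 < 0 :=
    mul_neg_of_neg_of_pos hneg h1
  linarith

theorem mu_le {Ω : Set (EuclideanSpace ℝ (Fin d))} (ho : IsOpen Ω)
    (hb : Bornology.IsBounded Ω) {k : ℕ} {M : ℝ} (h : RayleighBound Ω k M) :
    neumannEigenvalue Ω k ≤ M :=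
  csInf_le ⟨0, fun _ h' => RB_nonneg ho hb h'⟩ h

theorem mu_nonneg {Ω : Set (EuclideanSpace ℝ (Fin d))} (ho : IsOpen Ω)
    (hb : Bornology.IsBounded Ω) {k : ℕ} : 0 ≤ neumannEigenvalue Ω k :=
  Real.sInf_nonneg fun _ h' => RB_nonneg ho hb h'

/-- invariance under isometries -/
theorem RB_image (R : EuclideanSpace ℝ (Fin d) ≃ₗᵢ[ℝ] EuclideanSpace ℝ (Fin d))
    (v : EuclideanSpace ℝ (Fin d)) {Ω : Set (EuclideanSpace ℝ (Fin d))} {k : ℕ} {M : ℝ}
    (h : RayleighBound Ω k M) : RayleighBound ((fun x => R x + v) '' Ω) k M := by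
  obtain ⟨g, hg, hLI, hM⟩ := h
  have he : ∀ x, R.symm (R x + v - v) = x := fun x => by simp
  refine ⟨fun i y => g i (R.symm (y - v)), fun i => ?_, ?_, fun c => ?_⟩
  · exact (hg i).comp (R.symm.contDiff.comp (contDiff_id.sub contDiff_const))
  · rw [Fintype.linearIndependent_iff] at hLI ⊢
    intro c hc
    refine hLI c ?_
    funext x
    have h1 := congrFun hc ⟨R x.1 + v, x.1, x.2, rfl⟩
    simp only [Finset.sum_apply, Pi.smul_apply, he, smul_eq_mul,
      Pi.zero_apply] at h1 ⊢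
    exact h1
  · have hemb : MeasurableEmbedding (fun x => R x + v) :=
      (MeasurableEquiv.addRight v).measurableEmbedding.comp
        R.toHomeomorph.toMeasurableEquiv.measurableEmbedding
    have hmp : MeasurePreserving (fun x => R x + v) volume volume :=
      (measurePreserving_add_right volume v).comp R.measurePreserving
    rw [hmp.setIntegral_image_emb hemb, hmp.setIntegral_image_emb hemb]
    have e1 : ∀ x, (∑ i, c i • fun y => g i (R.symm (y - v))) (R x + v) =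
        (∑ i, c i • g i) x := by
      intro x
      rw [combo_apply, combo_apply]
      simp only [he]
    have e2 : ∀ x, ‖fderiv ℝ (∑ i, c i • fun y => g i (R.symm (y - v))) (R x + v)‖ =
        ‖fderiv ℝ (∑ i, c i • g i) x‖ := by
      intro x
      have e3 : (∑ i, c i • fun y => g i (R.symm (y - v))) =
          fun y => (∑ i, c i • g i) (R.symm (y - v)) := by
        funext y
        rw [combo_apply, combo_apply]
      rw [e3]
      have h2 : HasFDerivAt (fun y => R.symm (y - v))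
          (R.symm : EuclideanSpace ℝ (Fin d) →L[ℝ] EuclideanSpace ℝ (Fin d)) (R x + v) := by
        have h3 : HasFDerivAt (fun y : EuclideanSpace ℝ (Fin d) => y - v)
          (ContinuousLinearMap.id ℝ (EuclideanSpace ℝ (Fin d))) (R x + v) :=
          (hasFDerivAt_id _).sub_const v
        have h4 : HasFDerivAt (fun y => R.symm y)
          (R.symm : EuclideanSpace ℝ (Fin d) →L[ℝ] EuclideanSpace ℝ (Fin d)) (R x + v - v) :=
          (R.symm : EuclideanSpace ℝ (Fin d) →L[ℝ] EuclideanSpace ℝ (Fin d)).hasFDerivAt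
        exact HasFDerivAt.comp (R x + v) (f := fun y => y - v) h4 h3
      have h5 : HasFDerivAt (∑ i, c i • g i) (fderiv ℝ (∑ i, c i • g i) x)
          (R.symm (R x + v - v)) := by
        rw [he]
        exact ((combo_contDiff c hg).differentiable one_ne_zero _).hasFDerivAt
      have h6 := (HasFDerivAt.comp (R x + v) (f := fun y => R.symm (y - v)) h5 h2).fderiv
      have h7 : (fun y => (∑ i, c i • g i) (R.symm (y - v))) =
        (∑ i, c i • g i) ∘ fun y => R.symm (y - v) := rfl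
      rw [h7, h6]
      exact ContinuousLinearMap.opNorm_comp_linearIsometryEquiv _ R.symm
    simp only [e1, e2]
    exact hM c

end Pool.Agent.R225.NM
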