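import Pool.Agent.R225.NM.Eig

set_option autoImplicit false

/-!
# The min-max values are finite
-/

namespace Pool.Agent.R225.NM

open MeasureTheory Set WithLp Filter Topology
open scoped Real

variable {d : ℕ}

theorem sum_sq_expand {k : ℕ} (c a : Fin (k + 1) → ℝ) :
    (∑ i, c i * a i) ^ 2 = ∑ i, ∑ j, c i * c j * (a i * a j) := by
  rw [sq, Finset.sum_mul_sum]
  refine Finset.sum_congr rfl fun j _ => Finset.sum_congr rfl fun l _ => ?_
  ring

theorem int_bdd {Ω : Set (EuclideanSpace ℝ (Fin d))}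
    (hb : Bornology.IsBounded Ω) {f : EuclideanSpace ℝ (Fin d) → ℝ} (hf : Continuous f) :
    IntegrableOn f Ω := by
  have h1 : IntegrableOn f (closure Ω) :=
    hf.continuousOn.integrableOn_compact hb.isCompact_closure
  exact h1.mono_set subset_closure

/-- each finite family of `C¹` functions, linearly independent on a bounded open set, has a finite
Rayleigh bound -/
theorem exists_bound {Ω : Set (EuclideanSpace ℝ (Fin d))} (ho : IsOpen Ω)
    (hb : Bornology.IsBounded Ω) {k : ℕ} {g : Fin (k + 1) → EuclideanSpace ℝ (Fin d) → ℝ}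
    (hg : ∀ i, ContDiff ℝ 1 (g i))
    (hLI : LinearIndependent ℝ (fun (i : Fin (k + 1)) (x : Ω) => g i x)) :
    ∃ M, RayleighBound Ω k M := by
  have cg : ∀ i, Continuous (g i) := fun i => (hg i).continuous
  set Q : (Fin (k + 1) → ℝ) → ℝ := fun c => ∫ x in Ω, (∑ i, c i • g i) x ^ 2 with hQ
  have hQe : ∀ c, Q c = ∑ i, ∑ j, c i * c j * ∫ x in Ω, g i x * g j x := by
    intro c
    simp only [hQ, combo_apply, sum_sq_expand]
    have h1 : ∀ i j, IntegrableOn (fun x => c i * c j * (g i x * g j x)) Ω := fun i j =>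
      (int_bdd hb ((cg i).mul (cg j))).const_mul _
    rw [integral_finsetSum _ fun i _ => integrable_finsetSum _ fun j _ => h1 i j]
    refine Finset.sum_congr rfl fun i _ => ?_
    rw [integral_finsetSum _ fun j _ => h1 i j]
    refine Finset.sum_congr rfl fun j _ => ?_
    rw [integral_const_mul]
  have cQ : Continuous Q := by
    have : Q = fun c => ∑ i, ∑ j, c i * c j * ∫ x in Ω, g i x * g j x := funext hQe
    rw [this]
    fun_prop
  have hQs : ∀ (t : ℝ) (c : Fin (k + 1) → ℝ), Q (t • c) = t ^ 2 * Q c := by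
    intro t c
    rw [hQe, hQe, Finset.mul_sum]
    refine Finset.sum_congr rfl fun i _ => ?_
    rw [Finset.mul_sum]
    refine Finset.sum_congr rfl fun j _ => ?_
    simp only [Pi.smul_apply, smul_eq_mul]
    ring
  have hQpos : ∀ c, c ≠ 0 → 0 < Q c := by
    intro c hc
    obtain ⟨x, hx, hne⟩ := nonzero_of_LI hLI hc
    exact cont_sq_pos ho hb (combo_contDiff c hg).continuous hx hne
  -- the minimum on the unit sphere (of the sup norm)
  have hcomp : IsCompact (Metric.sphere (0 : Fin (k + 1) → ℝ) 1) := isCompact_sphere _ _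
  have hne : (Metric.sphere (0 : Fin (k + 1) → ℝ) 1).Nonempty :=
    (NormedSpace.sphere_nonempty).2 zero_le_one
  obtain ⟨c₀, hc₀, hmin⟩ := hcomp.exists_isMinOn hne cQ.continuousOn
  have hc₀0 : c₀ ≠ 0 := by
    intro h
    rw [h, mem_sphere_zero_iff_norm, norm_zero] at hc₀
    exact zero_ne_one hc₀
  have hq := hQpos c₀ hc₀0
  have hlow : ∀ c, Q c₀ * ‖c‖ ^ 2 ≤ Q c := by
    intro c
    by_cases hc : c = 0
    · subst hc
      have : Q 0 = 0 := by rw [hQe]; simp
      rw [this]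
      simp
    · have hn : 0 < ‖c‖ := norm_pos_iff.2 hc
      have h1 : ‖c‖⁻¹ • c ∈ Metric.sphere (0 : Fin (k + 1) → ℝ) 1 := by
        rw [mem_sphere_zero_iff_norm, norm_smul, norm_inv, norm_norm]
        exact inv_mul_cancel₀ hn.ne'
      have h2 : Q c₀ ≤ Q (‖c‖⁻¹ • c) := hmin h1
      rw [hQs] at h2
      have h3 : (‖c‖⁻¹) ^ 2 * Q c * ‖c‖ ^ 2 = Q c := by field_simp
      rw [← h3]
      exact mul_le_mul_of_nonneg_right h2 (sq_nonneg _)
  -- the upper bound of the energy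
  set B : ℝ := ∫ x in Ω, (∑ i, ‖fderiv ℝ (g i) x‖) ^ 2 with hB
  have cfd : ∀ i, Continuous fun x => ‖fderiv ℝ (g i) x‖ := fun i =>
    ((hg i).continuous_fderiv one_ne_zero).norm
  have hup : ∀ c : Fin (k + 1) → ℝ, ∫ x in Ω, ‖fderiv ℝ (∑ i, c i • g i) x‖ ^ 2 ≤ ‖c‖ ^ 2 * B := by
    intro c
    rw [hB, ← integral_const_mul]
    refine integral_mono (int_bdd hb
      (((combo_contDiff c hg).continuous_fderiv one_ne_zero).norm.pow 2))
      (int_bdd hb (continuous_const.mul
        ((continuous_finsetSum _ fun i _ => cfd i).pow 2))) fun x => ?_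
    show ‖fderiv ℝ (∑ i, c i • g i) x‖ ^ 2 ≤ ‖c‖ ^ 2 * (∑ i, ‖fderiv ℝ (g i) x‖) ^ 2
    have h1 : fderiv ℝ (∑ i, c i • g i) x = ∑ i, c i • fderiv ℝ (g i) x := by
      rw [fderiv_sum fun i _ => ((hg i).differentiable one_ne_zero x).const_smul (c i)]
      refine Finset.sum_congr rfl fun i _ => ?_
      rw [fderiv_const_smul ((hg i).differentiable one_ne_zero x)]
    have h2 : ‖fderiv ℝ (∑ i, c i • g i) x‖ ≤ ‖c‖ * ∑ i, ‖fderiv ℝ (g i) x‖ := by
      rw [h1, Finset.mul_sum]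
      refine (norm_sum_le _ _).trans (Finset.sum_le_sum fun i _ => ?_)
      rw [norm_smul]
      exact mul_le_mul_of_nonneg_right (norm_le_pi_norm c i) (norm_nonneg _)
    rw [← mul_pow]
    exact pow_le_pow_left₀ (norm_nonneg _) h2 2
  have hB0 : 0 ≤ B := integral_nonneg fun x => sq_nonneg _
  refine ⟨B / Q c₀, g, hg, hLI, fun c => (hup c).trans ?_⟩
  have h1 := hlow c
  have h2 : B / Q c₀ * (Q c₀ * ‖c‖ ^ 2) ≤ B / Q c₀ * Q c :=
    mul_le_mul_of_nonneg_left h1 (by positivity)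
  have h3 : B / Q c₀ * (Q c₀ * ‖c‖ ^ 2) = ‖c‖ ^ 2 * B := by field_simp
  rw [← h3]
  exact h2

theorem LI_mono {Ω Ω' : Set (EuclideanSpace ℝ (Fin d))} (h : Ω ⊆ Ω') {k : ℕ}
    {g : Fin (k + 1) → EuclideanSpace ℝ (Fin d) → ℝ}
    (hLI : LinearIndependent ℝ (fun (i : Fin (k + 1)) (x : Ω) => g i x)) :
    LinearIndependent ℝ (fun (i : Fin (k + 1)) (x : Ω') => g i x) := by
  rw [Fintype.linearIndependent_iff] at hLI ⊢
  intro c hc
  refine hLI c ?_
  funext x
  have h1 := congrFun hc ⟨x.1, h x.2⟩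
  simp only [Finset.sum_apply, Pi.smul_apply, smul_eq_mul, Pi.zero_apply] at h1 ⊢
  exact h1

end Pool.Agent.R225.NM
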