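import Pool.Agent.R225.NM.Box

set_option autoImplicit false

/-!
# The optimal monotonicity constant of the Neumann eigenvalues in dimension at least three
-/

namespace Pool.Agent.R225.NM

open MeasureTheory Set WithLp Filter Topology
open scoped Real

/-- bounded convex domains: nonempty bounded open convex sets -/
structure IsConvexDomain {d : ℕ} (Ω : Set (EuclideanSpace ℝ (Fin d))) : Prop where
  isOpen : IsOpen Ω
  convex : Convex ℝ Ω
  isBounded : Bornology.IsBounded Ω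
  nonempty : Ω.Nonempty

/-- `α_{k,d}`: the infimum of `μ_k(Ω₁) / μ_k(Ω₂)` over the bounded convex domains `Ω₁ ⊆ Ω₂` in the
Euclidean space of dimension `d`. -/
noncomputable def alpha (k d : ℕ) : ℝ :=
  sInf {r : ℝ | ∃ Ω₁ Ω₂ : Set (EuclideanSpace ℝ (Fin d)), IsConvexDomain Ω₁ ∧
    IsConvexDomain Ω₂ ∧ Ω₁ ⊆ Ω₂ ∧ r = neumannEigenvalue Ω₁ k / neumannEigenvalue Ω₂ k}

variable {d : ℕ}

theorem box_domain {a : Fin d → ℝ} (ha : ∀ i, 0 < a i) : IsConvexDomain (Box a) := by
  refine ⟨?_, ?_, ?_, ?_⟩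
  · have h2 : Box a = ⋂ i, (fun x : EuclideanSpace ℝ (Fin d) => x i) ⁻¹' Ioo 0 (a i) := by
      ext x
      simp [Box]
    rw [h2]
    refine isOpen_iInter_of_finite fun i => ?_
    have h3 : Continuous fun x : EuclideanSpace ℝ (Fin d) => x i := by fun_prop
    exact isOpen_Ioo.preimage h3
  · intro x hx y hy s t hs ht hst i
    have h1 := convex_Ioo (0:ℝ) (a i) (hx i) (hy i) hs ht hst
    simpa using h1
  · refine isBounded_iff_forall_norm_le.2 ⟨√(∑ i, a i ^ 2), fun x hx => ?_⟩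
    rw [EuclideanSpace.norm_eq]
    refine Real.sqrt_le_sqrt (Finset.sum_le_sum fun i _ => ?_)
    have h1 := hx i
    rw [Real.norm_eq_abs, sq_abs]
    exact pow_le_pow_left₀ h1.1.le h1.2.le 2
  · exact ⟨toLp 2 fun i => a i / 2, fun i => ⟨half_pos (ha i), half_lt_self (ha i)⟩⟩

/-- the sides of the long box -/
noncomputable def la (n k : ℕ) (i : Fin (n + 1)) : ℝ := if i = 0 then (k : ℝ) else 1

theorem box_lower (n k : ℕ) {M : ℝ} (h : RayleighBound (Box (la n k)) k M)
    (hk : 1 ≤ k) : π ^ 2 ≤ M := by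
  classical
  have hla : ∀ i, 0 < la n k i := by
    intro i
    unfold la
    split_ifs
    · exact_mod_cast hk
    · exact one_pos
  have hdom := box_domain hla
  obtain ⟨g, hg, hLI, hM⟩ := h
  set bb : ℕ → Fin (n + 1) → ℝ := fun l => Pi.single 0 (l:ℝ) with hbb
  -- a nonzero combination with mean zero on each of the unit cubes
  let T : (Fin (k + 1) → ℝ) →ₗ[ℝ] (Fin k → ℝ) :=
    LinearMap.pi fun l => ∑ j, (∫ x in Icc (bb l) (bb l + 1), g j (toLp 2 x)) •
      (LinearMap.proj j : (Fin (k + 1) → ℝ) →ₗ[ℝ] ℝ)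
  have hT : LinearMap.ker T ≠ ⊥ := LinearMap.ker_ne_bot_of_finrank_lt (by simp)
  obtain ⟨c, hcT, hc0⟩ := Submodule.exists_mem_ne_zero_of_ne_bot hT
  set V : (Fin (n + 1) → ℝ) → ℝ := fun x => (∑ i, c i • g i) (toLp 2 x) with hV
  have cV : ContDiff ℝ 1 V := (combo_contDiff c hg).comp toLp_contDiff
  have cgi : ∀ j, Continuous fun x : Fin (n + 1) → ℝ => g j (toLp 2 x) := fun j =>
    ((hg j).comp toLp_contDiff).continuous
  have hmean : ∀ l < k, ∫ x in Icc (bb l) (bb l + 1), V x = 0 := by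
    intro l hl
    have h1 := congrFun (LinearMap.mem_ker.1 hcT) ⟨l, hl⟩
    simp only [T, LinearMap.pi_apply, LinearMap.sum_apply, LinearMap.smul_apply,
      LinearMap.proj_apply, smul_eq_mul, Pi.zero_apply] at h1
    rw [hV]
    simp only [combo_apply]
    rw [integral_finsetSum _ fun j _ => (intble (cgi j) _).const_mul _]
    rw [← h1]
    refine Finset.sum_congr rfl fun j _ => ?_
    rw [integral_const_mul, mul_comm]
  have hP : ∀ l < k, π ^ 2 * ∫ x in Icc (bb l) (bb l + 1), V x ^ 2 ≤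
      ∫ x in Icc (bb l) (bb l + 1), ∑ i, pd V i x ^ 2 := by
    intro l hl
    have h1 := poin (n + 1) V cV (bb l)
    unfold Vr at h1
    rw [hmean l hl] at h1
    simpa using h1
  -- the box is the union of the cubes
  have hae : ∀ l, (univ.pi fun i => Ico (bb l i) (bb l i + 1) : Set (Fin (n + 1) → ℝ))
      =ᵐ[volume] Icc (bb l) (bb l + 1) := fun l => by
    have := Measure.univ_pi_Ico_ae_eq_Icc (μ := fun _ : Fin (n + 1) => (volume : Measure ℝ))
      (f := bb l) (g := bb l + 1)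
    exact this
  have hae2 : (univ.pi fun i => Ioo 0 (la n k i) : Set (Fin (n + 1) → ℝ))
      =ᵐ[volume] (univ.pi fun i => Ico 0 (la n k i)) := by
    have h1 := Measure.univ_pi_Ico_ae_eq_Icc (μ := fun _ : Fin (n + 1) => (volume : Measure ℝ))
      (f := fun _ => (0:ℝ)) (g := la n k)
    have h2 := Measure.univ_pi_Ioo_ae_eq_Icc (μ := fun _ : Fin (n + 1) => (volume : Measure ℝ))
      (f := fun _ => (0:ℝ)) (g := la n k)
    exact h2.trans h1.symm
  have hunion : (univ.pi fun i => Ico 0 (la n k i) : Set (Fin (n + 1) → ℝ)) =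
      ⋃ l ∈ Finset.range k, (univ.pi fun i => Ico (bb l i) (bb l i + 1)) := by
    ext x
    simp only [mem_iUnion, Finset.mem_range, mem_univ_pi, exists_prop]
    constructor
    · intro hx
      have h0 := hx 0
      rw [la, if_pos rfl] at h0
      refine ⟨⌊x 0⌋₊, (Nat.floor_lt h0.1).2 h0.2, fun i => ?_⟩
      by_cases hi : i = 0
      · subst hi
        simp only [hbb, Pi.single_eq_same]
        exact ⟨Nat.floor_le h0.1, Nat.lt_floor_add_one _⟩
      · have h1 := hx i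
        rw [la, if_neg hi] at h1
        simp only [hbb, Pi.single_eq_of_ne hi]
        exact ⟨h1.1, by linarith [h1.2]⟩
    · rintro ⟨l, hl, hx⟩ i
      have h1 := hx i
      by_cases hi : i = 0
      · subst hi
        simp only [hbb, Pi.single_eq_same] at h1
        rw [la, if_pos rfl]
        have h2 : (l:ℝ) + 1 ≤ k := by exact_mod_cast hl
        exact ⟨(Nat.cast_nonneg l).trans h1.1, h1.2.trans_le h2⟩
      · simp only [hbb, Pi.single_eq_of_ne hi] at h1
        rw [la, if_neg hi]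
        exact ⟨h1.1, by linarith [h1.2]⟩
  have hdisj : (Finset.range k : Set ℕ).Pairwise (Function.onFun Disjoint
      fun l => (univ.pi fun i => Ico (bb l i) (bb l i + 1) : Set (Fin (n + 1) → ℝ))) := by
    intro l _ l' _ hll
    rw [Function.onFun, Set.disjoint_left]
    intro x hx hx'
    have h1 := hx 0 (mem_univ _)
    have h2 := hx' 0 (mem_univ _)
    simp only [hbb, Pi.single_eq_same] at h1 h2
    have h3 : (l:ℝ) < l' + 1 := h1.1.trans_lt h2.2
    have h4 : (l':ℝ) < l + 1 := h2.1.trans_lt h1.2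
    have h5 : l < l' + 1 := by exact_mod_cast h3
    have h6 : l' < l + 1 := by exact_mod_cast h4
    omega
  have hsum : ∀ G : (Fin (n + 1) → ℝ) → ℝ, Continuous G →
      ∫ x in univ.pi fun i => Ioo 0 (la n k i), G x =
        ∑ l ∈ Finset.range k, ∫ x in Icc (bb l) (bb l + 1), G x := by
    intro G hG
    rw [setIntegral_congr_set hae2, hunion, integral_biUnion_finset _ _ hdisj]
    · exact Finset.sum_congr rfl fun l _ => setIntegral_congr_set (hae l)
    · intro l _
      exact (intble hG (bb l)).congr_set_ae (hae l)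
    · intro l _
      exact MeasurableSet.univ_pi fun i => measurableSet_Ico
  have e1 : ∫ x in Box (la n k), (∑ i, c i • g i) x ^ 2 =
      ∑ l ∈ Finset.range k, ∫ x in Icc (bb l) (bb l + 1), V x ^ 2 := by
    rw [← setInt (Box (la n k)), box_preimage]
    exact hsum (fun x => V x ^ 2) (cV.continuous.pow 2)
  have e2 : ∫ x in Box (la n k), ‖fderiv ℝ (∑ i, c i • g i) x‖ ^ 2 =
      ∑ l ∈ Finset.range k, ∫ x in Icc (bb l) (bb l + 1), ∑ i, pd V i x ^ 2 := by
    rw [← setInt (Box (la n k)) (fun x => ‖fderiv ℝ (∑ i, c i • g i) x‖ ^ 2), box_preimage]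
    simp only [norm_fderiv_sq _ (combo_contDiff c hg)]
    exact hsum (fun x => ∑ i, pd V i x ^ 2)
      (continuous_finsetSum _ fun i _ => (pd_continuous cV i).pow 2)
  obtain ⟨x, hx, hne⟩ := nonzero_of_LI hLI hc0
  have hpos := cont_sq_pos hdom.isOpen hdom.isBounded (combo_contDiff c hg).continuous hx hne
  have h1 := hM c
  have h2 : π ^ 2 * ∫ x in Box (la n k), (∑ i, c i • g i) x ^ 2 ≤
      ∫ x in Box (la n k), ‖fderiv ℝ (∑ i, c i • g i) x‖ ^ 2 := by
    rw [e1, e2, Finset.mul_sum]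
    exact Finset.sum_le_sum fun l hl => hP l (Finset.mem_range.1 hl)
  exact le_of_mul_le_mul_right (h2.trans h1) hpos

/-- the rotation in the plane of the coordinates `1`, `2` -/
noncomputable def R0 (n : ℕ) (x : EuclideanSpace ℝ (Fin (n + 3))) :
    EuclideanSpace ℝ (Fin (n + 3)) :=
  toLp 2 fun i => if i = 1 then (x 1 + x 2) / √2 else if i = 2 then (x 1 - x 2) / √2 else x i

theorem two_ne_one (n : ℕ) : (2 : Fin (n + 3)) ≠ 1 := by
  intro h
  have h1 := congrArg Fin.val h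
  have h2 : ((1 : Fin (n + 3)) : ℕ) = 1 := Fin.val_one (n + 1)
  rw [h2, Fin.val_two] at h1
  omega

theorem R0_one (n : ℕ) (x : EuclideanSpace ℝ (Fin (n + 3))) : R0 n x 1 = (x 1 + x 2) / √2 := by
  simp [R0]

theorem R0_two (n : ℕ) (x : EuclideanSpace ℝ (Fin (n + 3))) : R0 n x 2 = (x 1 - x 2) / √2 := by
  simp [R0, two_ne_one]

theorem R0_other (n : ℕ) (x : EuclideanSpace ℝ (Fin (n + 3))) {i : Fin (n + 3)} (h1 : i ≠ 1)
    (h2 : i ≠ 2) : R0 n x i = x i := by
  simp [R0, h1, h2]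

/-- the rotation as a linear isometry -/
noncomputable def R1 (n : ℕ) :
    EuclideanSpace ℝ (Fin (n + 3)) ≃ₗᵢ[ℝ] EuclideanSpace ℝ (Fin (n + 3)) where
  toFun := R0 n
  invFun := R0 n
  map_add' x y := by
    ext i
    by_cases h1 : i = 1
    · subst h1
      simp only [PiLp.add_apply, R0_one]
      ring
    · by_cases h2 : i = 2
      · subst h2
        simp only [PiLp.add_apply, R0_two]
        ring
      · simp only [PiLp.add_apply, R0_other n _ h1 h2]
  map_smul' c x := by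
    ext i
    by_cases h1 : i = 1
    · subst h1
      simp only [PiLp.smul_apply, R0_one, smul_eq_mul, RingHom.id_apply]
      ring
    · by_cases h2 : i = 2
      · subst h2
        simp only [PiLp.smul_apply, R0_two, smul_eq_mul, RingHom.id_apply]
        ring
      · simp only [PiLp.smul_apply, R0_other n _ h1 h2, RingHom.id_apply]
  left_inv x := by
    have h22 : √2 * √2 = 2 := Real.mul_self_sqrt (by norm_num)
    have h20 : √2 ≠ 0 := by positivity
    ext i
    by_cases h1 : i = 1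
    · subst h1
      rw [R0_one, R0_one, R0_two, ← add_div, div_div, h22]
      ring
    · by_cases h2 : i = 2
      · subst h2
        rw [R0_two, R0_one, R0_two, ← sub_div, div_div, h22]
        ring
      · rw [R0_other n _ h1 h2, R0_other n _ h1 h2]
  right_inv x := by
    have h22 : √2 * √2 = 2 := Real.mul_self_sqrt (by norm_num)
    have h20 : √2 ≠ 0 := by positivity
    ext i
    by_cases h1 : i = 1
    · subst h1
      rw [R0_one, R0_one, R0_two, ← add_div, div_div, h22]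
      ring
    · by_cases h2 : i = 2
      · subst h2
        rw [R0_two, R0_one, R0_two, ← sub_div, div_div, h22]
        ring
      · rw [R0_other n _ h1 h2, R0_other n _ h1 h2]
  norm_map' x := by
    show ‖R0 n x‖ = ‖x‖
    rw [EuclideanSpace.norm_eq, EuclideanSpace.norm_eq]
    congr 1
    have h12 : (1 : Fin (n + 3)) ≠ 2 := (two_ne_one n).symm
    have key : ∀ f : Fin (n + 3) → ℝ, ∑ i, f i = f 1 + (f 2 +
        ∑ i ∈ (Finset.univ.erase (1 : Fin (n + 3))).erase 2, f i) := by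
      intro f
      rw [← Finset.add_sum_erase _ f (Finset.mem_univ 1),
        ← Finset.add_sum_erase _ f (Finset.mem_erase.2 ⟨h12.symm, Finset.mem_univ 2⟩)]
    rw [key, key (fun i => ‖x i‖ ^ 2), R0_one, R0_two]
    have h22 : √2 ^ 2 = 2 := Real.sq_sqrt (by norm_num)
    have e1 : ‖(x 1 + x 2) / √2‖ ^ 2 = (x 1 + x 2) ^ 2 / 2 := by
      rw [Real.norm_eq_abs, sq_abs, div_pow, h22]
    have e2 : ‖(x 1 - x 2) / √2‖ ^ 2 = (x 1 - x 2) ^ 2 / 2 := by
      rw [Real.norm_eq_abs, sq_abs, div_pow, h22]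
    have e3 : ∑ i ∈ (Finset.univ.erase (1 : Fin (n + 3))).erase 2, ‖R0 n x i‖ ^ 2 =
        ∑ i ∈ (Finset.univ.erase (1 : Fin (n + 3))).erase 2, ‖x i‖ ^ 2 := by
      refine Finset.sum_congr rfl fun i hi => ?_
      rw [Finset.mem_erase, Finset.mem_erase] at hi
      rw [R0_other n x hi.2.1 hi.1]
    rw [e1, e2, e3, Real.norm_eq_abs, Real.norm_eq_abs, sq_abs, sq_abs]
    ring

/-- the sides of the thin box -/
noncomputable def sa (n k : ℕ) (l : ℝ) (i : Fin (n + 3)) : ℝ :=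
  if i = 0 then (k : ℝ) else if i = 1 then l else if i = 2 then √2 - l else 1

theorem zero_ne_one' (n : ℕ) : (0 : Fin (n + 3)) ≠ 1 := by
  intro h
  have h1 := congrArg Fin.val h
  have h2 : ((1 : Fin (n + 3)) : ℕ) = 1 := Fin.val_one (n + 1)
  rw [h2] at h1
  simp at h1

theorem zero_ne_two' (n : ℕ) : (0 : Fin (n + 3)) ≠ 2 := by
  intro h
  have h1 := congrArg Fin.val h
  rw [Fin.val_two] at h1
  simp at h1

theorem sa_pos {n k : ℕ} {l : ℝ} (hk : 1 ≤ k) (hl : 0 < l) (hl' : l < √2) (i : Fin (n + 3)) :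
    0 < sa n k l i := by
  unfold sa
  split_ifs
  · exact_mod_cast hk
  · exact hl
  · linarith
  · exact one_pos

/-- the translation -/
noncomputable def tv (n : ℕ) (l : ℝ) : EuclideanSpace ℝ (Fin (n + 3)) :=
  toLp 2 fun i => if i = 2 then (√2 - l) / √2 else 0

theorem thin_subset {n k : ℕ} {l : ℝ} :
    (fun x => R1 n x + tv n l) '' Box (sa n k l) ⊆ Box (la (n + 2) k) := by
  have h20 : 0 < √2 := by positivity
  rintro _ ⟨x, hx, rfl⟩ i
  have hx1 := hx 1
  have hx2 := hx 2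
  have hxi := hx i
  simp only [sa, (zero_ne_one' n).symm, if_false, if_true] at hx1
  simp only [sa, (zero_ne_two' n).symm, two_ne_one n, if_false, if_true] at hx2
  show (R0 n x + tv n l) i ∈ _
  rw [PiLp.add_apply]
  by_cases h1 : i = 1
  · subst h1
    have e1 : tv n l 1 = 0 := by simp [tv, (two_ne_one n).symm]
    rw [R0_one, e1, add_zero, la, if_neg (zero_ne_one' n).symm]
    refine ⟨div_pos (by linarith [hx1.1, hx2.1]) h20, ?_⟩
    rw [div_lt_one h20]
    linarith [hx1.2, hx2.2]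
  · by_cases h2 : i = 2
    · subst h2
      have e1 : tv n l 2 = (√2 - l) / √2 := by simp [tv]
      rw [R0_two, e1, ← add_div, la, if_neg (zero_ne_two' n).symm]
      refine ⟨div_pos (by linarith [hx1.1, hx2.2]) h20, ?_⟩
      rw [div_lt_one h20]
      linarith [hx1.2, hx2.1]
    · have e1 : tv n l i = 0 := by simp [tv, h2]
      rw [R0_other n x h1 h2, e1, add_zero]
      simp only [sa, h1, h2, if_false] at hxi
      exact hxi

theorem thin_domain {n k : ℕ} {l : ℝ} (hk : 1 ≤ k) (hl : 0 < l) (hl' : l < √2) :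
    IsConvexDomain ((fun x => R1 n x + tv n l) '' Box (sa n k l)) := by
  have hb := box_domain (sa_pos (n := n) hk hl hl')
  have hb2 : IsConvexDomain (Box (la (n + 2) k)) := box_domain (by
    intro i
    unfold la
    split_ifs
    · exact_mod_cast hk
    · exact one_pos)
  refine ⟨?_, ?_, hb2.isBounded.subset (thin_subset), hb.nonempty.image _⟩
  · exact ((R1 n).toHomeomorph.trans (Homeomorph.addRight (tv n l))).isOpenMap _ hb.isOpen
  · have h1 := (hb.convex.linear_image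
      ((R1 n).toLinearEquiv : EuclideanSpace ℝ (Fin (n + 3)) →ₗ[ℝ] _)).translate (tv n l)
    rw [image_image] at h1
    have h2 : (fun x => tv n l + ((R1 n).toLinearEquiv :
        EuclideanSpace ℝ (Fin (n + 3)) →ₗ[ℝ] _) x) = fun x => R1 n x + tv n l := by
      funext x
      exact add_comm (tv n l) (R1 n x)
    rw [h2] at h1
    exact h1

/-- the frequencies of the trial functions -/
noncomputable def fr (n k : ℕ) (s : ℝ) (j : Fin (k + 1)) (i : Fin (n + 3)) : ℕ :=
  if i = 0 then (if (j : ℕ) ≤ ⌊s * k⌋₊ then (j : ℕ) else j - (⌊s * k⌋₊ + 1))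
  else if i = 1 then (if (j : ℕ) ≤ ⌊s * k⌋₊ then 0 else 1) else 0

theorem fr_inj (n k : ℕ) (s : ℝ) : Function.Injective (fr n k s) := by
  intro j j' h
  have h0 := congrFun h 0
  have h1 := congrFun h 1
  simp only [fr, if_true] at h0
  simp only [fr, (zero_ne_one' n).symm, if_false, if_true] at h1
  apply Fin.ext
  split_ifs at h0 h1 <;> omega

theorem fr_bound {n k : ℕ} {s l : ℝ} (hk : 1 ≤ k) (hs : 3 / 4 < s) (hs1 : s < 1) (hl : 0 < l)
    (hl1 : 1 / l ^ 2 ≤ 2 * s - 1) (j : Fin (k + 1)) :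
    ∑ i, (π * fr n k s j i / sa n k l i) ^ 2 ≤ π ^ 2 * s ^ 2 := by
  have hk0 : (0:ℝ) < k := by exact_mod_cast hk
  have hπ := Real.pi_pos
  have key : ∀ f : Fin (n + 3) → ℝ, (∀ i, i ≠ 0 → i ≠ 1 → f i = 0) → ∑ i, f i = f 0 + f 1 := by
    intro f hf
    rw [← Finset.add_sum_erase _ f (Finset.mem_univ 0),
      ← Finset.add_sum_erase _ f (Finset.mem_erase.2 ⟨(zero_ne_one' n).symm, Finset.mem_univ 1⟩),
      Finset.sum_eq_zero]
    · ring
    · intro i hi
      rw [Finset.mem_erase, Finset.mem_erase] at hi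
      exact hf i hi.2.1 hi.1
  rw [key]
  · have e0 : sa n k l 0 = k := by simp [sa]
    have e1 : sa n k l 1 = l := by simp [sa, (zero_ne_one' n).symm]
    rw [e0, e1]
    simp only [fr, (zero_ne_one' n).symm, if_false, if_true]
    have hfl : (⌊s * k⌋₊ : ℝ) ≤ s * k := Nat.floor_le (by positivity)
    have hfl2 : s * k < (⌊s * k⌋₊ : ℝ) + 1 := Nat.lt_floor_add_one _
    split_ifs with hj
    · have h1 : ((j : ℕ) : ℝ) ≤ s * k := by
        have : ((j : ℕ) : ℝ) ≤ (⌊s * k⌋₊ : ℝ) := by exact_mod_cast hj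
        linarith
      have h2 : π * ((j : ℕ) : ℝ) / k ≤ π * s := by
        rw [div_le_iff₀ hk0]
        nlinarith
      have h3 : 0 ≤ π * ((j : ℕ) : ℝ) / k := by positivity
      have h4 := pow_le_pow_left₀ h3 h2 2
      simp only [Nat.cast_zero, mul_zero, zero_div]
      nlinarith
    · push Not at hj
      have h1 : (((j : ℕ) - (⌊s * k⌋₊ + 1) : ℕ) : ℝ) ≤ (1 - s) * k := by
        rw [Nat.cast_sub (by omega)]
        have h2 : ((j : ℕ) : ℝ) ≤ k := by exact_mod_cast Nat.lt_succ_iff.1 j.2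
        push_cast
        nlinarith
      have h2 : π * (((j : ℕ) - (⌊s * k⌋₊ + 1) : ℕ) : ℝ) / k ≤ π * (1 - s) := by
        rw [div_le_iff₀ hk0]
        nlinarith
      have h3 : 0 ≤ π * (((j : ℕ) - (⌊s * k⌋₊ + 1) : ℕ) : ℝ) / k := by positivity
      have h4 := pow_le_pow_left₀ h3 h2 2
      have h5 : (π * ((1 : ℕ) : ℝ) / l) ^ 2 = π ^ 2 * (1 / l ^ 2) := by
        push_cast
        field_simp
      rw [h5]
      have h6 : π ^ 2 * (1 / l ^ 2) ≤ π ^ 2 * (2 * s - 1) :=
        mul_le_mul_of_nonneg_left hl1 (sq_nonneg π)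
      nlinarith
  · intro i h0 h1
    simp [fr, h0, h1]

/-- nested convex domains whose `k`-th eigenvalues have a ratio close to `9 / 16` -/
theorem pair (n k : ℕ) (hk : 1 ≤ k) {s : ℝ} (hs : 3 / 4 < s) (hs1 : s < 1) :
    ∃ Ω₁ Ω₂ : Set (EuclideanSpace ℝ (Fin (n + 3))), IsConvexDomain Ω₁ ∧ IsConvexDomain Ω₂ ∧
      Ω₁ ⊆ Ω₂ ∧ neumannEigenvalue Ω₁ k ≤ π ^ 2 * s ^ 2 ∧ π ^ 2 ≤ neumannEigenvalue Ω₂ k := by
  have hπ := Real.pi_pos
  set l : ℝ := 1 / √(2 * s - 1) with hl
  have h2s : 0 < 2 * s - 1 := by linarith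
  have hl0 : 0 < l := by positivity
  have hlsq : 1 / l ^ 2 = 2 * s - 1 := by
    rw [hl, div_pow, Real.sq_sqrt h2s.le]
    simp
  have hl2 : l < √2 := by
    have h1 : l ^ 2 < 2 := by
      have h2 : l ^ 2 = 1 / (2 * s - 1) := by
        rw [← hlsq]; simp
      rw [h2, div_lt_iff₀ h2s]
      linarith
    exact Real.lt_sqrt_of_sq_lt h1
  have hdom1 := thin_domain (n := n) hk hl0 hl2
  have hla : ∀ i, 0 < la (n + 2) k i := by
    intro i
    unfold la
    split_ifs
    · exact_mod_cast hk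
    · exact one_pos
  have hdom2 := box_domain hla
  have hup : neumannEigenvalue ((fun x => R1 n x + tv n l) '' Box (sa n k l)) k ≤
      π ^ 2 * s ^ 2 :=
    mu_le hdom1.isOpen hdom1.isBounded (RB_image (R1 n) (tv n l)
      (RB_box (sa_pos hk hl0 hl2) (fr n k s) (fr_inj n k s)
        (fr_bound hk hs hs1 hl0 hlsq.le)))
  have hne : ({M : ℝ | RayleighBound (Box (la (n + 2) k)) k M}).Nonempty := by
    set m : Fin (k + 1) → Fin (n + 3) → ℕ := fun j i => if i = 0 then (j : ℕ) else 0 with hm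
    have hinj : Function.Injective m := by
      intro j j' h
      have h0 := congrFun h 0
      simp only [hm, if_true] at h0
      exact Fin.ext h0
    refine ⟨∑ j, ∑ i, (π * m j i / la (n + 2) k i) ^ 2, RB_box hla m hinj fun j => ?_⟩
    exact Finset.single_le_sum (f := fun j => ∑ i, (π * m j i / la (n + 2) k i) ^ 2)
      (fun j _ => Finset.sum_nonneg fun i _ => sq_nonneg _) (Finset.mem_univ j)
  have hlow : π ^ 2 ≤ neumannEigenvalue (Box (la (n + 2) k)) k :=
    le_csInf hne fun M hM => box_lower (n + 2) k hM hk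
  exact ⟨_, _, hdom1, hdom2, thin_subset, hup, hlow⟩

theorem pair_eps (n k : ℕ) (hk : 1 ≤ k) {ε : ℝ} (hε : 0 < ε) :
    ∃ Ω₁ Ω₂ : Set (EuclideanSpace ℝ (Fin (n + 3))), IsConvexDomain Ω₁ ∧ IsConvexDomain Ω₂ ∧
      Ω₁ ⊆ Ω₂ ∧ neumannEigenvalue Ω₁ k ≤ (9 / 16 + ε) * π ^ 2 ∧
      π ^ 2 ≤ neumannEigenvalue Ω₂ k := by
  have hcont : ContinuousWithinAt (fun s : ℝ => s ^ 2) (Ioi (3 / 4)) (3 / 4) := by fun_prop
  have h1 : Tendsto (fun s : ℝ => s ^ 2) (𝓝[>] (3 / 4)) (𝓝 ((3 / 4) ^ 2)) := hcont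
  have h2 : ∀ᶠ s : ℝ in 𝓝[>] (3 / 4), s ^ 2 < 9 / 16 + ε :=
    h1.eventually (gt_mem_nhds (by norm_num; exact hε))
  have h3 : ∀ᶠ s : ℝ in 𝓝[>] (3 / 4), s ∈ Ioo (3 / 4 : ℝ) 1 :=
    Ioo_mem_nhdsGT (by norm_num)
  obtain ⟨s, hs1, hs2⟩ := (h2.and h3).exists
  obtain ⟨Ω₁, Ω₂, h4, h5, h6, h7, h8⟩ := pair n k hk hs2.1 hs2.2
  refine ⟨Ω₁, Ω₂, h4, h5, h6, h7.trans ?_, h8⟩
  nlinarith [sq_nonneg π]

theorem alpha_le (n k : ℕ) (hk : 1 ≤ k) : alpha k (n + 3) ≤ 9 / 16 := by
  have hπ := Real.pi_pos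
  refine le_of_forall_pos_le_add fun ε hε => ?_
  obtain ⟨Ω₁, Ω₂, hdom1, hdom2, hsub, hup, hlow⟩ := pair_eps n k hk hε
  have hbdd : BddBelow {r : ℝ | ∃ Ω₁ Ω₂ : Set (EuclideanSpace ℝ (Fin (n + 3))),
      IsConvexDomain Ω₁ ∧ IsConvexDomain Ω₂ ∧ Ω₁ ⊆ Ω₂ ∧
      r = neumannEigenvalue Ω₁ k / neumannEigenvalue Ω₂ k} := by
    refine ⟨0, ?_⟩
    rintro r ⟨Ω₁, Ω₂, h1, h2, _, rfl⟩
    exact div_nonneg (mu_nonneg h1.isOpen h1.isBounded) (mu_nonneg h2.isOpen h2.isBounded)
  have hpos : 0 < neumannEigenvalue Ω₂ k :=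
    (show (0:ℝ) < π ^ 2 by positivity).trans_le hlow
  refine (csInf_le hbdd ⟨_, _, hdom1, hdom2, hsub, rfl⟩).trans ?_
  rw [div_le_iff₀ hpos]
  nlinarith [sq_nonneg π]

end Pool.Agent.R225.NM
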