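import Mathlib

set_option autoImplicit false

/-!
# The Poincare inequality on unit cubes, with the sharp constant
-/

namespace Pool.Agent.R225.NM

open MeasureTheory Set
open scoped Real

/-- partial derivative -/
noncomputable def pd {n : ℕ} (f : (Fin n → ℝ) → ℝ) (i : Fin n) (x : Fin n → ℝ) : ℝ :=
  fderiv ℝ f x (Pi.single i 1)

/-- Wirtinger's inequality, almost sharp form, for the primitive of a function of mean zero -/
theorem wirt {f : ℝ → ℝ} (hf : Continuous f) (b : ℝ) {c : ℝ} (hc : 0 < c) (hc' : c < π)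
    (h0 : ∫ x in b..(b + 1), f x = 0) :
    c ^ 2 * ∫ x in b..(b + 1), (∫ s in b..x, f s) ^ 2 ≤ ∫ x in b..(b + 1), f x ^ 2 := by
  set F : ℝ → ℝ := fun x => ∫ s in b..x, f s with hF
  have dF : ∀ x, HasDerivAt F (f x) x := fun x =>
    intervalIntegral.integral_hasDerivAt_right (hf.intervalIntegrable _ _)
      (hf.stronglyMeasurableAtFilter _ _) hf.continuousAt
  have cF : Continuous F := continuous_iff_continuousAt.2 fun x => (dF x).continuousAt
  set e : ℝ := (π - c) / 2 with he
  have he0 : 0 < e := by rw [he]; linarith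
  have hs : ∀ x ∈ Icc b (b + 1), 0 < Real.sin (c * (x - b) + e) := by
    intro x hx
    have h1 : 0 ≤ x - b := by linarith [hx.1]
    have h2 : x - b ≤ 1 := by linarith [hx.2]
    refine Real.sin_pos_of_pos_of_lt_pi (by positivity) ?_
    have h3 : c * (x - b) ≤ c := by nlinarith
    rw [he]
    linarith
  set w : ℝ → ℝ := fun x => c * Real.cos (c * (x - b) + e) / Real.sin (c * (x - b) + e) with hw
  have dw : ∀ x ∈ Icc b (b + 1), HasDerivAt w (-(c ^ 2) - w x ^ 2) x := by
    intro x hx
    have h1 := hs x hx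
    have h2 : HasDerivAt (fun x : ℝ => c * (x - b) + e) c x := by
      simpa using (((hasDerivAt_id x).sub_const b).const_mul c).add_const e
    have h3 := ((h2.cos.const_mul c).div h2.sin h1.ne')
    refine h3.congr_deriv ?_
    rw [hw]
    have h4 := Real.sin_sq_add_cos_sq (c * (x - b) + e)
    field_simp
    try nlinarith
  have cw : ContinuousOn w (Icc b (b + 1)) := fun x hx => (dw x hx).continuousAt.continuousWithinAt
  have hb : b ≤ b + 1 := by linarith
  have huI : uIcc b (b + 1) = Icc b (b + 1) := uIcc_of_le hb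
  have h1 : ∫ x in b..(b + 1), ((-(c ^ 2) - w x ^ 2) * F x ^ 2 + w x * (2 * F x * f x)) = 0 := by
    have h2 : ∀ x ∈ uIcc b (b + 1), HasDerivAt (fun x => w x * F x ^ 2)
        ((-(c ^ 2) - w x ^ 2) * F x ^ 2 + w x * (2 * F x * f x)) x := by
      intro x hx
      rw [huI] at hx
      have h3 := (dw x hx).mul ((dF x).pow 2)
      refine h3.congr_deriv ?_
      simp
    rw [intervalIntegral.integral_eq_sub_of_hasDerivAt h2]
    · have h4 : F (b + 1) = 0 := h0
      have h5 : F b = 0 := by simp [hF]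
      rw [h4, h5]
      ring
    · refine ContinuousOn.intervalIntegrable ?_
      rw [huI]
      have := cF.continuousOn (s := Icc b (b + 1))
      have := hf.continuousOn (s := Icc b (b + 1))
      fun_prop
  have h6 : 0 ≤ ∫ x in b..(b + 1), (f x - w x * F x) ^ 2 :=
    intervalIntegral.integral_nonneg hb fun x _ => sq_nonneg _
  have i1 : IntervalIntegrable (fun x => f x ^ 2) volume b (b + 1) :=
    (hf.pow 2).intervalIntegrable _ _
  have i2 : IntervalIntegrable (fun x => c ^ 2 * F x ^ 2) volume b (b + 1) :=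
    ((cF.pow 2).const_smul (c ^ 2)).intervalIntegrable _ _
  have i3 : IntervalIntegrable (fun x => (-(c ^ 2) - w x ^ 2) * F x ^ 2 +
      w x * (2 * F x * f x)) volume b (b + 1) := by
    refine ContinuousOn.intervalIntegrable ?_
    rw [huI]
    have := cF.continuousOn (s := Icc b (b + 1))
    have := hf.continuousOn (s := Icc b (b + 1))
    fun_prop
  have h7 : ∫ x in b..(b + 1), (f x - w x * F x) ^ 2 =
      (∫ x in b..(b + 1), f x ^ 2) - c ^ 2 * (∫ x in b..(b + 1), F x ^ 2) -
        ∫ x in b..(b + 1), ((-(c ^ 2) - w x ^ 2) * F x ^ 2 + w x * (2 * F x * f x)) := by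
    rw [← intervalIntegral.integral_const_mul, ← intervalIntegral.integral_sub i1 i2,
      ← intervalIntegral.integral_sub (i1.sub i2) i3]
    refine intervalIntegral.integral_congr fun x _ => ?_
    ring
  rw [h7, h1] at h6
  linarith

/-- the Poincare inequality on a unit interval, mean zero -/
theorem poin0 {f : ℝ → ℝ} (hf : ContDiff ℝ 1 f) (b : ℝ) (h0 : ∫ x in b..(b + 1), f x = 0) :
    π ^ 2 * ∫ x in b..(b + 1), f x ^ 2 ≤ ∫ x in b..(b + 1), deriv f x ^ 2 := by
  have hfc : Continuous f := hf.continuous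
  have hdc : Continuous (deriv f) := hf.continuous_deriv le_rfl
  have hb : b ≤ b + 1 := by linarith
  have key : ∀ c : ℝ, 0 < c → c < π →
      c ^ 2 * ∫ x in b..(b + 1), f x ^ 2 ≤ ∫ x in b..(b + 1), deriv f x ^ 2 := by
    intro c hc hc'
    have hw := wirt hfc b hc hc' h0
    set F : ℝ → ℝ := fun x => ∫ s in b..x, f s with hF
    have dF : ∀ x, HasDerivAt F (f x) x := fun x =>
      intervalIntegral.integral_hasDerivAt_right (hfc.intervalIntegrable _ _)
        (hfc.stronglyMeasurableAtFilter _ _) hfc.continuousAt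
    have cF : Continuous F := continuous_iff_continuousAt.2 fun x => (dF x).continuousAt
    have h1 : ∫ x in b..(b + 1), F x * deriv f x = -∫ x in b..(b + 1), f x ^ 2 := by
      rw [intervalIntegral.integral_mul_deriv_eq_deriv_mul (u' := f) (v := f)
        (fun x _ => dF x) (fun x _ => (hf.differentiable one_ne_zero x).hasDerivAt)
        (hfc.intervalIntegrable _ _) (hdc.intervalIntegrable _ _)]
      have h4 : F (b + 1) = 0 := h0
      have h5 : F b = 0 := by simp [hF]
      rw [h4, h5]
      have : (fun x => f x * f x) = fun x => f x ^ 2 := by funext x; ring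
      rw [this]
      ring
    have h2 : 0 ≤ ∫ x in b..(b + 1), (deriv f x + c ^ 2 * F x) ^ 2 :=
      intervalIntegral.integral_nonneg hb fun x _ => sq_nonneg _
    have i1 : IntervalIntegrable (fun x => deriv f x ^ 2) volume b (b + 1) :=
      (hdc.pow 2).intervalIntegrable _ _
    have i2 : IntervalIntegrable (fun x => 2 * c ^ 2 * (F x * deriv f x)) volume b (b + 1) := by
      refine Continuous.intervalIntegrable ?_ _ _
      fun_prop
    have i3 : IntervalIntegrable (fun x => c ^ 4 * F x ^ 2) volume b (b + 1) := by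
      refine Continuous.intervalIntegrable ?_ _ _
      fun_prop
    have h3 : ∫ x in b..(b + 1), (deriv f x + c ^ 2 * F x) ^ 2 =
        (∫ x in b..(b + 1), deriv f x ^ 2) + 2 * c ^ 2 * (∫ x in b..(b + 1), F x * deriv f x) +
          c ^ 4 * ∫ x in b..(b + 1), F x ^ 2 := by
      rw [← intervalIntegral.integral_const_mul, ← intervalIntegral.integral_const_mul,
        ← intervalIntegral.integral_add i1 i2, ← intervalIntegral.integral_add (i1.add i2) i3]
      refine intervalIntegral.integral_congr fun x _ => ?_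
      ring
    rw [h3, h1] at h2
    have h5 : c ^ 4 * ∫ x in b..(b + 1), F x ^ 2 = c ^ 2 * (c ^ 2 * ∫ x in b..(b + 1), F x ^ 2) := by
      ring
    rw [h5] at h2
    have h6 := mul_le_mul_of_nonneg_left hw (sq_nonneg c)
    linarith
  set A := ∫ x in b..(b + 1), f x ^ 2
  set B := ∫ x in b..(b + 1), deriv f x ^ 2
  have hcont : ContinuousWithinAt (fun c : ℝ => c ^ 2 * A) (Iio π) π := by fun_prop
  refine le_of_tendsto hcont ?_
  filter_upwards [Ioo_mem_nhdsLT Real.pi_pos] with c hc
  exact key c hc.1 hc.2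

/-- the variance on the unit cube -/
noncomputable def Vr {n : ℕ} (b : Fin n → ℝ) (f : (Fin n → ℝ) → ℝ) : ℝ :=
  (∫ x in Icc b (b + 1), f x ^ 2) - (∫ x in Icc b (b + 1), f x) ^ 2

theorem poin1 {f : ℝ → ℝ} (hf : ContDiff ℝ 1 f) (b : ℝ) :
    π ^ 2 * ((∫ x in Icc b (b + 1), f x ^ 2) - (∫ x in Icc b (b + 1), f x) ^ 2) ≤
      ∫ x in Icc b (b + 1), deriv f x ^ 2 := by
  have hb : b ≤ b + 1 := by linarith
  simp only [integral_Icc_eq_integral_Ioc, ← intervalIntegral.integral_of_le hb]
  set m := ∫ x in b..(b + 1), f x with hm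
  have hg : ContDiff ℝ 1 (fun x => f x - m) := hf.sub contDiff_const
  have i0 : IntervalIntegrable f volume b (b + 1) := hf.continuous.intervalIntegrable _ _
  have h1 : ∫ x in b..(b + 1), (f x - m) = 0 := by
    rw [intervalIntegral.integral_sub i0 (by simp)]
    simp [hm]
  have h2 := poin0 hg b h1
  have h3 : deriv (fun x => f x - m) = deriv f := by
    funext x
    rw [deriv_sub_const]
  rw [h3] at h2
  have h4 : ∫ x in b..(b + 1), (f x - m) ^ 2 = (∫ x in b..(b + 1), f x ^ 2) - m ^ 2 := by
    have h5 : ∀ x, (f x - m) ^ 2 = f x ^ 2 - 2 * m * f x + m ^ 2 := fun x => by ring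
    simp only [h5]
    have i1 : IntervalIntegrable (fun x => f x ^ 2) volume b (b + 1) :=
      (hf.continuous.pow 2).intervalIntegrable _ _
    have i2 : IntervalIntegrable (fun x => 2 * m * f x) volume b (b + 1) := i0.const_mul _
    rw [intervalIntegral.integral_add (i1.sub i2) (by simp), intervalIntegral.integral_sub i1 i2,
      intervalIntegral.integral_const_mul, ← hm]
    simp
    ring
  rw [h4] at h2
  exact h2

section tensor

variable {n : ℕ}

theorem sq_integral_le {f : ℝ → ℝ} (hf : Continuous f) (b : ℝ) :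
    (∫ x in Icc b (b + 1), f x) ^ 2 ≤ ∫ x in Icc b (b + 1), f x ^ 2 := by
  have hb : b ≤ b + 1 := by linarith
  simp only [integral_Icc_eq_integral_Ioc, ← intervalIntegral.integral_of_le hb]
  set m := ∫ x in b..(b + 1), f x with hm
  have i0 : IntervalIntegrable f volume b (b + 1) := hf.intervalIntegrable _ _
  have h2 : 0 ≤ ∫ x in b..(b + 1), (f x - m) ^ 2 :=
    intervalIntegral.integral_nonneg hb fun x _ => sq_nonneg _
  have h4 : ∫ x in b..(b + 1), (f x - m) ^ 2 = (∫ x in b..(b + 1), f x ^ 2) - m ^ 2 := by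
    have h5 : ∀ x, (f x - m) ^ 2 = f x ^ 2 - 2 * m * f x + m ^ 2 := fun x => by ring
    simp only [h5]
    have i1 : IntervalIntegrable (fun x => f x ^ 2) volume b (b + 1) :=
      (hf.pow 2).intervalIntegrable _ _
    have i2 : IntervalIntegrable (fun x => 2 * m * f x) volume b (b + 1) := i0.const_mul _
    rw [intervalIntegral.integral_add (i1.sub i2) (by simp), intervalIntegral.integral_sub i1 i2,
      intervalIntegral.integral_const_mul, ← hm]
    simp
    ring
  linarith

theorem vol_cube (b : Fin n → ℝ) : volume.real (Icc b (b + 1)) = 1 := by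
  rw [Measure.real, Real.volume_Icc_pi_toReal (by intro i; simp)]
  simp

theorem intble {g : (Fin n → ℝ) → ℝ} (hg : Continuous g) (b : Fin n → ℝ) :
    IntegrableOn g (Icc b (b + 1)) := hg.integrableOn_Icc

theorem intble1 {g : ℝ → ℝ} (hg : Continuous g) (b : ℝ) :
    IntegrableOn g (Icc b (b + 1)) := hg.integrableOn_Icc

theorem fub {g : ℝ → (Fin n → ℝ) → ℝ} (hg : Continuous (Function.uncurry g)) (b0 : ℝ)
    (b : Fin n → ℝ) :
    ∫ t in Icc b0 (b0 + 1), ∫ y in Icc b (b + 1), g t y =
      ∫ y in Icc b (b + 1), ∫ t in Icc b0 (b0 + 1), g t y := by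
  refine integral_integral_swap ?_
  rw [Measure.prod_restrict]
  exact hg.continuousOn.integrableOn_compact (isCompact_Icc.prod isCompact_Icc)

theorem tensor {f : ℝ → (Fin n → ℝ) → ℝ} (hf : Continuous (Function.uncurry f)) (b0 : ℝ)
    (b : Fin n → ℝ) :
    (∫ t in Icc b0 (b0 + 1), ∫ y in Icc b (b + 1), f t y ^ 2) -
        (∫ t in Icc b0 (b0 + 1), ∫ y in Icc b (b + 1), f t y) ^ 2 ≤
      (∫ y in Icc b (b + 1), ((∫ t in Icc b0 (b0 + 1), f t y ^ 2) -
        (∫ t in Icc b0 (b0 + 1), f t y) ^ 2)) +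
      ∫ t in Icc b0 (b0 + 1), ((∫ y in Icc b (b + 1), f t y ^ 2) -
        (∫ y in Icc b (b + 1), f t y) ^ 2) := by
  have hf1 : ∀ t, Continuous (f t) := fun t => hf.comp (Continuous.prodMk_right t)
  have hf2 : ∀ y, Continuous (fun t => f t y) := fun y => hf.comp (Continuous.prodMk_left y)
  have hsq : Continuous (Function.uncurry fun t y => f t y ^ 2) := hf.pow 2
  have hswap : Continuous (Function.uncurry fun y t => f t y) := hf.comp continuous_swap
  set H : ℝ → ℝ := fun t => ∫ y in Icc b (b + 1), f t y with hH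
  set G : (Fin n → ℝ) → ℝ := fun y => ∫ t in Icc b0 (b0 + 1), f t y with hG
  have cH : Continuous H := continuous_parametric_integral_of_continuous hf isCompact_Icc
  have cG : Continuous G := continuous_parametric_integral_of_continuous hswap isCompact_Icc
  have cS1 : Continuous fun t => ∫ y in Icc b (b + 1), f t y ^ 2 :=
    continuous_parametric_integral_of_continuous hsq isCompact_Icc
  have cS2 : Continuous fun y => ∫ t in Icc b0 (b0 + 1), f t y ^ 2 :=
    continuous_parametric_integral_of_continuous (f := fun y t => f t y ^ 2)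
      (hsq.comp continuous_swap) isCompact_Icc
  have eS := fub hsq b0 b
  have em := fub hf b0 b
  set m := ∫ t in Icc b0 (b0 + 1), H t with hm
  have em' : m = ∫ y in Icc b (b + 1), G y := em
  set S := ∫ t in Icc b0 (b0 + 1), ∫ y in Icc b (b + 1), f t y ^ 2 with hS
  have r1 : ∫ y in Icc b (b + 1), ((∫ t in Icc b0 (b0 + 1), f t y ^ 2) -
      (∫ t in Icc b0 (b0 + 1), f t y) ^ 2) = S - ∫ y in Icc b (b + 1), G y ^ 2 := by
    rw [eS]
    exact integral_sub (intble cS2 b) (intble (cG.pow 2) b)
  have r2 : ∫ t in Icc b0 (b0 + 1), ((∫ y in Icc b (b + 1), f t y ^ 2) -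
      (∫ y in Icc b (b + 1), f t y) ^ 2) = S - ∫ t in Icc b0 (b0 + 1), H t ^ 2 :=
    integral_sub (intble1 cS1 b0) (intble1 (cH.pow 2) b0)
  rw [r1, r2]
  -- the function without its means over the cube
  have c1 : Continuous (Function.uncurry fun t y => (f t y - H t) ^ 2) :=
    (hf.sub (cH.comp continuous_fst)).pow 2
  have c2 : Continuous fun y => ∫ t in Icc b0 (b0 + 1), (f t y - H t) ^ 2 :=
    continuous_parametric_integral_of_continuous (f := fun y t => (f t y - H t) ^ 2)
      (c1.comp continuous_swap) isCompact_Icc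
  have h1 : ∀ y, (G y - m) ^ 2 ≤ ∫ t in Icc b0 (b0 + 1), (f t y - H t) ^ 2 := by
    intro y
    have h2 := sq_integral_le (f := fun t => f t y - H t) ((hf2 y).sub cH) b0
    rw [integral_sub (intble1 (hf2 y) b0) (intble1 cH b0)] at h2
    exact h2
  have h3 : ∫ y in Icc b (b + 1), (G y - m) ^ 2 ≤
      ∫ y in Icc b (b + 1), ∫ t in Icc b0 (b0 + 1), (f t y - H t) ^ 2 :=
    integral_mono (intble ((cG.sub continuous_const).pow 2) b) (intble c2 b) h1
  have h4 : ∫ y in Icc b (b + 1), (G y - m) ^ 2 = (∫ y in Icc b (b + 1), G y ^ 2) - m ^ 2 := by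
    have e1 : ∀ y, (G y - m) ^ 2 = G y ^ 2 - (2 * m * G y - m ^ 2) := fun y => by ring
    simp only [e1]
    have i1 : IntegrableOn (fun y => G y ^ 2) (Icc b (b + 1)) := intble (cG.pow 2) b
    have i2 : IntegrableOn (fun y => 2 * m * G y) (Icc b (b + 1)) := (intble cG b).const_mul _
    have i3 : IntegrableOn (fun _ : Fin n → ℝ => m ^ 2) (Icc b (b + 1)) :=
      intble continuous_const b
    have i4 : IntegrableOn (fun y => 2 * m * G y - m ^ 2) (Icc b (b + 1)) := i2.sub i3
    rw [integral_sub i1 i4, integral_sub i2 i3, integral_const_mul, ← em',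
      setIntegral_const, vol_cube]
    simp
    ring
  have h5 : ∫ y in Icc b (b + 1), ∫ t in Icc b0 (b0 + 1), (f t y - H t) ^ 2 =
      S - ∫ t in Icc b0 (b0 + 1), H t ^ 2 := by
    rw [← fub c1 b0 b]
    have e1 : ∀ t, ∫ y in Icc b (b + 1), (f t y - H t) ^ 2 =
        (∫ y in Icc b (b + 1), f t y ^ 2) - H t ^ 2 := by
      intro t
      have e1 : ∀ y, (f t y - H t) ^ 2 = f t y ^ 2 - (2 * H t * f t y - H t ^ 2) :=
        fun y => by ring
      simp only [e1]
      have i1 : IntegrableOn (fun y => f t y ^ 2) (Icc b (b + 1)) := intble ((hf1 t).pow 2) b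
      have i2 : IntegrableOn (fun y => 2 * H t * f t y) (Icc b (b + 1)) :=
        (intble (hf1 t) b).const_mul _
      have i3 : IntegrableOn (fun _ : Fin n → ℝ => H t ^ 2) (Icc b (b + 1)) :=
        intble continuous_const b
      have i4 : IntegrableOn (fun y => 2 * H t * f t y - H t ^ 2) (Icc b (b + 1)) := i2.sub i3
      rw [integral_sub i1 i4, integral_sub i2 i3, integral_const_mul,
        setIntegral_const, vol_cube]
      have : ∫ y in Icc b (b + 1), f t y = H t := rfl
      rw [this]
      simp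
      ring
    simp only [e1]
    exact integral_sub (intble1 cS1 b0) (intble1 (cH.pow 2) b0)
  have h6 : (∫ t in Icc b0 (b0 + 1), (∫ y in Icc b (b + 1), f t y) ^ 2) =
    ∫ t in Icc b0 (b0 + 1), H t ^ 2 := rfl
  have h7 : (∫ y in Icc b (b + 1), (∫ t in Icc b0 (b0 + 1), f t y) ^ 2) =
    ∫ y in Icc b (b + 1), G y ^ 2 := rfl
  linarith

end tensor

/-- change of variables: the first coordinate and the others -/
theorem split {n : ℕ} (g : (Fin (n + 1) → ℝ) → ℝ) (hg : Continuous g) (b : Fin (n + 1) → ℝ) :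
    ∫ x in Icc b (b + 1), g x =
      ∫ t in Icc (b 0) (b 0 + 1), ∫ y in Icc (Fin.tail b) (Fin.tail b + 1), g (Fin.cons t y) := by
  have h1 := (volume_preserving_piFinSuccAbove (fun _ : Fin (n + 1) => ℝ) 0).symm
  have h2 := h1.setIntegral_preimage_emb
    (MeasurableEquiv.piFinSuccAbove (fun _ : Fin (n + 1) => ℝ) 0).symm.measurableEmbedding g
    (Icc b (b + 1))
  have h3 : (MeasurableEquiv.piFinSuccAbove (fun _ : Fin (n + 1) => ℝ) 0).symm ⁻¹'
      (Icc b (b + 1)) = Icc (b 0) (b 0 + 1) ×ˢ Icc (Fin.tail b) (Fin.tail b + 1) := by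
    ext ⟨t, y⟩
    simp only [MeasurableEquiv.piFinSuccAbove, mem_preimage,
      mem_Icc, mem_prod, Pi.le_def]
    constructor
    · rintro ⟨h4, h5⟩
      refine ⟨⟨by simpa using h4 0, by simpa using h5 0⟩, fun i => ?_, fun i => ?_⟩
      · simpa [Fin.tail] using h4 i.succ
      · simpa [Fin.tail] using h5 i.succ
    · rintro ⟨⟨h4, h5⟩, h6, h7⟩
      refine ⟨fun i => ?_, fun i => ?_⟩
      · refine Fin.cases ?_ (fun j => ?_) i
        · simpa using h4
        · simpa [Fin.tail] using h6 j
      · refine Fin.cases ?_ (fun j => ?_) i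
        · simpa using h5
        · simpa [Fin.tail] using h7 j
  rw [h3] at h2
  rw [← h2]
  have h4 : ∀ z : ℝ × (Fin n → ℝ),
      (MeasurableEquiv.piFinSuccAbove (fun _ : Fin (n + 1) => ℝ) 0).symm z =
        Fin.cons z.1 z.2 := by
    rintro ⟨t, y⟩
    funext i
    refine Fin.cases ?_ (fun j => ?_) i
    · rfl
    · rfl
  simp only [h4]
  have hc : Continuous fun z : ℝ × (Fin n → ℝ) => g (Fin.cons z.1 z.2) := by
    refine hg.comp ?_
    refine continuous_pi fun i => ?_
    refine Fin.cases ?_ (fun j => ?_) i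
    · simp only [Fin.cons_zero]
      fun_prop
    · simp only [Fin.cons_succ]
      fun_prop
  refine setIntegral_prod (μ := volume) (ν := volume) (fun z => g (Fin.cons z.1 z.2)) ?_
  exact hc.continuousOn.integrableOn_compact (isCompact_Icc.prod isCompact_Icc)

theorem line_deriv {n : ℕ} {f : (Fin n → ℝ) → ℝ} (hf : ContDiff ℝ 1 f) (i : Fin n)
    (x : Fin n → ℝ) :
    HasDerivAt (fun s : ℝ => f (x + s • (Pi.single i (1:ℝ) : Fin n → ℝ))) (pd f i x) 0 := by
  have h1 : HasDerivAt (fun s : ℝ => x + s • (Pi.single i (1:ℝ) : Fin n → ℝ))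
      (Pi.single i (1:ℝ)) 0 := by
    simpa using ((hasDerivAt_id (0:ℝ)).smul_const (Pi.single i (1:ℝ) : Fin n → ℝ)).const_add x
  have h2 : HasFDerivAt f (fderiv ℝ f (x + (0:ℝ) • (Pi.single i (1:ℝ) : Fin n → ℝ)))
      (x + (0:ℝ) • (Pi.single i (1:ℝ) : Fin n → ℝ)) :=
    (hf.differentiable one_ne_zero _).hasFDerivAt
  have h3 := h2.comp_hasDerivAt (0:ℝ) h1
  have h4 : x + (0:ℝ) • (Pi.single i (1:ℝ) : Fin n → ℝ) = x := by simp
  rw [h4] at h3
  exact h3

theorem pd_continuous {n : ℕ} {f : (Fin n → ℝ) → ℝ} (hf : ContDiff ℝ 1 f) (i : Fin n) :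
    Continuous (pd f i) :=
  (hf.continuous_fderiv one_ne_zero).clm_apply continuous_const

theorem cons_contDiff_left {n : ℕ} (y : Fin n → ℝ) :
    ContDiff ℝ 1 (fun t : ℝ => (Fin.cons t y : Fin (n + 1) → ℝ)) := by
  refine contDiff_pi.2 fun i => ?_
  refine Fin.cases ?_ (fun j => ?_) i
  · simp only [Fin.cons_zero]
    exact contDiff_id
  · simp only [Fin.cons_succ]
    exact contDiff_const

theorem cons_contDiff_right {n : ℕ} (t : ℝ) :
    ContDiff ℝ 1 (fun y : Fin n → ℝ => (Fin.cons t y : Fin (n + 1) → ℝ)) := by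
  refine contDiff_pi.2 fun i => ?_
  refine Fin.cases ?_ (fun j => ?_) i
  · simp only [Fin.cons_zero]
    exact contDiff_const
  · simp only [Fin.cons_succ]
    exact contDiff_apply ℝ ℝ j

theorem cons_continuous {n : ℕ} :
    Continuous (fun z : ℝ × (Fin n → ℝ) => (Fin.cons z.1 z.2 : Fin (n + 1) → ℝ)) := by
  refine continuous_pi fun i => ?_
  refine Fin.cases ?_ (fun j => ?_) i
  · simp only [Fin.cons_zero]
    fun_prop
  · simp only [Fin.cons_succ]
    fun_prop

theorem deriv_cons {n : ℕ} {f : (Fin (n + 1) → ℝ) → ℝ} (hf : ContDiff ℝ 1 f) (t : ℝ)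
    (y : Fin n → ℝ) :
    deriv (fun t => f (Fin.cons t y)) t = pd f 0 (Fin.cons t y) := by
  have h1 := line_deriv hf 0 (Fin.cons t y)
  have h2 : (fun s : ℝ => f ((Fin.cons t y : Fin (n + 1) → ℝ) +
      s • (Pi.single 0 (1:ℝ) : Fin (n + 1) → ℝ))) = fun s => f (Fin.cons (t + s) y) := by
    funext s
    congr 1
    funext i
    refine Fin.cases ?_ (fun j => ?_) i
    · simp
    · simp
  rw [h2] at h1
  have h3 : HasDerivAt (fun t => f (Fin.cons t y)) (deriv (fun t => f (Fin.cons t y)) (t + 0))
      (t + 0) :=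
    ((hf.comp (cons_contDiff_left y)).differentiable one_ne_zero _).hasDerivAt
  have h4 : HasDerivAt (fun s : ℝ => t + s) 1 0 := by
    simpa using (hasDerivAt_id (0:ℝ)).const_add t
  have h5 := (h3.comp (0:ℝ) h4).unique h1
  rw [mul_one, add_zero] at h5
  exact h5

theorem pd_cons {n : ℕ} {f : (Fin (n + 1) → ℝ) → ℝ} (hf : ContDiff ℝ 1 f) (t : ℝ)
    (y : Fin n → ℝ) (i : Fin n) :
    pd (fun y => f (Fin.cons t y)) i y = pd f i.succ (Fin.cons t y) := by
  have h1 := line_deriv hf i.succ (Fin.cons t y)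
  have h2 : (fun s : ℝ => f ((Fin.cons t y : Fin (n + 1) → ℝ) +
      s • (Pi.single i.succ (1:ℝ) : Fin (n + 1) → ℝ))) =
      fun s => f (Fin.cons t (y + s • (Pi.single i (1:ℝ) : Fin n → ℝ))) := by
    funext s
    congr 1
    funext l
    refine Fin.cases ?_ (fun j => ?_) l
    · simp
    · simp only [Pi.add_apply, Fin.cons_succ, Pi.smul_apply, smul_eq_mul, add_right_inj]
      by_cases hj : j = i
      · subst hj
        simp
      · rw [Pi.single_eq_of_ne hj, Pi.single_eq_of_ne (fun h => hj (Fin.succ_injective _ h))]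
  rw [h2] at h1
  exact (line_deriv (f := fun y => f (Fin.cons t y)) (hf.comp (cons_contDiff_right t)) i y).unique h1

/-- the Poincare inequality on the unit cube -/
theorem poin : ∀ (n : ℕ) (f : (Fin n → ℝ) → ℝ), ContDiff ℝ 1 f → ∀ b : Fin n → ℝ,
    π ^ 2 * Vr b f ≤ ∫ x in Icc b (b + 1), ∑ i, pd f i x ^ 2 := by
  intro n
  induction n with
  | zero =>
    intro f hf b
    have h1 : Vr b f = 0 := by
      unfold Vr
      have h2 : ∀ g : (Fin 0 → ℝ) → ℝ, ∫ x in Icc b (b + 1), g x = g b := by
        intro g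
        have h3 : ∀ x, g x = g b := fun x => by rw [Subsingleton.elim x b]
        simp only [h3]
        rw [setIntegral_const, vol_cube]
        simp
      rw [h2 f, h2 fun x => f x ^ 2]
      ring
    rw [h1, mul_zero]
    exact integral_nonneg fun x => Finset.sum_nonneg fun i _ => sq_nonneg _
  | succ n ih =>
    intro f hf b
    have hfc : Continuous f := hf.continuous
    set g : ℝ → (Fin n → ℝ) → ℝ := fun t y => f (Fin.cons t y) with hg
    have cg : Continuous (Function.uncurry g) := hfc.comp cons_continuous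
    have h1 : Vr b f = (∫ t in Icc (b 0) (b 0 + 1),
          ∫ y in Icc (Fin.tail b) (Fin.tail b + 1), g t y ^ 2) -
        (∫ t in Icc (b 0) (b 0 + 1), ∫ y in Icc (Fin.tail b) (Fin.tail b + 1), g t y) ^ 2 := by
      unfold Vr
      rw [split f hfc b, split (fun x => f x ^ 2) (by fun_prop) b]
    have h2 := tensor cg (b 0) (Fin.tail b)
    rw [← h1] at h2
    have cp0 : Continuous (Function.uncurry fun (t : ℝ) (y : Fin n → ℝ) =>
        pd f 0 (Fin.cons t y) ^ 2) := ((pd_continuous hf 0).pow 2).comp cons_continuous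
    have cps : Continuous (Function.uncurry fun (t : ℝ) (y : Fin n → ℝ) =>
        ∑ i : Fin n, pd f i.succ (Fin.cons t y) ^ 2) := by
      have : Continuous fun x => ∑ i : Fin n, pd f i.succ x ^ 2 :=
        continuous_finsetSum _ fun i _ => (pd_continuous hf i.succ).pow 2
      exact this.comp cons_continuous
    have ct1 : Continuous fun t => ∫ y in Icc (Fin.tail b) (Fin.tail b + 1),
        pd f 0 (Fin.cons t y) ^ 2 :=
      continuous_parametric_integral_of_continuous cp0 isCompact_Icc
    have ct2 : Continuous fun t => ∫ y in Icc (Fin.tail b) (Fin.tail b + 1),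
        ∑ i : Fin n, pd f i.succ (Fin.cons t y) ^ 2 :=
      continuous_parametric_integral_of_continuous cps isCompact_Icc
    have cy1 : Continuous fun y : Fin n → ℝ => ∫ t in Icc (b 0) (b 0 + 1),
        pd f 0 (Fin.cons t y) ^ 2 :=
      continuous_parametric_integral_of_continuous (f := fun (y : Fin n → ℝ) (t : ℝ) =>
        pd f 0 (Fin.cons t y) ^ 2) (cp0.comp continuous_swap) isCompact_Icc
    have hsq : Continuous (Function.uncurry fun t y => g t y ^ 2) := cg.pow 2
    have cS1 : Continuous fun t => ∫ y in Icc (Fin.tail b) (Fin.tail b + 1), g t y ^ 2 :=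
      continuous_parametric_integral_of_continuous hsq isCompact_Icc
    have cS2 : Continuous fun y => ∫ t in Icc (b 0) (b 0 + 1), g t y ^ 2 :=
      continuous_parametric_integral_of_continuous (f := fun y t => g t y ^ 2)
        (hsq.comp continuous_swap) isCompact_Icc
    have cH : Continuous fun t => ∫ y in Icc (Fin.tail b) (Fin.tail b + 1), g t y :=
      continuous_parametric_integral_of_continuous cg isCompact_Icc
    have cG : Continuous fun y => ∫ t in Icc (b 0) (b 0 + 1), g t y :=
      continuous_parametric_integral_of_continuous (f := fun y t => g t y)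
        (cg.comp continuous_swap) isCompact_Icc
    have h3 : π ^ 2 * (∫ y in Icc (Fin.tail b) (Fin.tail b + 1),
        ((∫ t in Icc (b 0) (b 0 + 1), g t y ^ 2) -
          (∫ t in Icc (b 0) (b 0 + 1), g t y) ^ 2)) ≤
        ∫ t in Icc (b 0) (b 0 + 1), ∫ y in Icc (Fin.tail b) (Fin.tail b + 1),
          pd f 0 (Fin.cons t y) ^ 2 := by
      rw [fub cp0 (b 0) (Fin.tail b), ← integral_const_mul]
      refine integral_mono (intble ((cS2.sub (cG.pow 2)).const_smul (π ^ 2)) _) (intble cy1 _)
        fun y => ?_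
      have h4 := poin1 (f := fun t => g t y) (hf.comp (cons_contDiff_left y)) (b 0)
      have h5 : ∀ t, deriv (fun t => g t y) t = pd f 0 (Fin.cons t y) := fun t =>
        deriv_cons hf t y
      simp only [h5] at h4
      exact h4
    have h6 : π ^ 2 * (∫ t in Icc (b 0) (b 0 + 1),
        ((∫ y in Icc (Fin.tail b) (Fin.tail b + 1), g t y ^ 2) -
          (∫ y in Icc (Fin.tail b) (Fin.tail b + 1), g t y) ^ 2)) ≤
        ∫ t in Icc (b 0) (b 0 + 1), ∫ y in Icc (Fin.tail b) (Fin.tail b + 1),
          ∑ i : Fin n, pd f i.succ (Fin.cons t y) ^ 2 := by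
      rw [← integral_const_mul]
      refine integral_mono (intble1 ((cS1.sub (cH.pow 2)).const_smul (π ^ 2)) _)
        (intble1 ct2 _) fun t => ?_
      have h4 := ih (g t) (hf.comp (cons_contDiff_right t)) (Fin.tail b)
      have h5 : ∀ y i, pd (g t) i y = pd f i.succ (Fin.cons t y) := fun y i => pd_cons hf t y i
      simp only [h5] at h4
      exact h4
    have h7 : ∫ x in Icc b (b + 1), ∑ i, pd f i x ^ 2 =
        (∫ t in Icc (b 0) (b 0 + 1), ∫ y in Icc (Fin.tail b) (Fin.tail b + 1),
          pd f 0 (Fin.cons t y) ^ 2) +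
        ∫ t in Icc (b 0) (b 0 + 1), ∫ y in Icc (Fin.tail b) (Fin.tail b + 1),
          ∑ i : Fin n, pd f i.succ (Fin.cons t y) ^ 2 := by
      rw [split (fun x => ∑ i, pd f i x ^ 2)
        (continuous_finsetSum _ fun i _ => (pd_continuous hf i).pow 2) b,
        ← integral_add (intble1 ct1 _) (intble1 ct2 _)]
      congr 1
      funext t
      rw [← integral_add]
      · congr 1
        funext y
        rw [Fin.sum_univ_succ]
      · exact intble (cp0.comp (Continuous.prodMk_right t)) _
      · exact intble (cps.comp (Continuous.prodMk_right t)) _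
    rw [h7]
    have h8 := mul_le_mul_of_nonneg_left h2 (sq_nonneg π)
    rw [mul_add] at h8
    linarith

end Pool.Agent.R225.NM
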